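import Mathlib

set_option linter.unusedVariables false
set_option linter.unusedSimpArgs false

namespace Pool.Agent.Results.MP_ea7ca7_co.AllLarge

/-- The closed unit square of the grid with lower-left corner `c`. -/
def cell (c : ℤ × ℤ) : Set (EuclideanSpace ℝ (Fin 2)) :=
  {x | (c.1 : ℝ) ≤ x 0 ∧ x 0 ≤ (c.1 : ℝ) + 1 ∧ (c.2 : ℝ) ≤ x 1 ∧ x 1 ≤ (c.2 : ℝ) + 1}

/-- The open unit square of the grid with lower-left corner `c`. -/
def openCell (c : ℤ × ℤ) : Set (EuclideanSpace ℝ (Fin 2)) :=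
  {x | (c.1 : ℝ) < x 0 ∧ x 0 < (c.1 : ℝ) + 1 ∧ (c.2 : ℝ) < x 1 ∧ x 1 < (c.2 : ℝ) + 1}

/-- The surface of the cube `[0, l]^3`. -/
def cubeSurface (l : ℝ) : Set (EuclideanSpace ℝ (Fin 3)) :=
  {y | (∀ i, 0 ≤ y i ∧ y i ≤ l) ∧ ∃ i, y i = 0 ∨ y i = l}

/-- Two grid squares share an edge. -/
def Adj (p q : ℤ × ℤ) : Prop :=
  (p.1 = q.1 ∧ (p.2 + 1 = q.2 ∨ q.2 + 1 = p.2)) ∨ (p.2 = q.2 ∧ (p.1 + 1 = q.1 ∨ q.1 + 1 = p.1))

/-- A polyomino: a nonempty finite set of grid squares, connected through shared edges. -/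
def IsPolyomino (S : Finset (ℤ × ℤ)) : Prop :=
  S.Nonempty ∧ ∀ a ∈ S, ∀ b ∈ S, Relation.ReflTransGen (fun p q => p ∈ S ∧ q ∈ S ∧ Adj p q) a b

/-- `S` folds to a cube (with creases on grid lines): one map `f` of the plane is an isometry on
each closed square of `S` (so it is continuous and length preserving on their union), maps the
union onto the surface of a cube (no gap), and is injective on the union of the open squares
(no overlap). -/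
def Folds (S : Finset (ℤ × ℤ)) : Prop :=
  ∃ l : ℝ, 0 < l ∧ ∃ f : EuclideanSpace ℝ (Fin 2) → EuclideanSpace ℝ (Fin 3),
    (∀ c ∈ S, ∀ x ∈ cell c, ∀ y ∈ cell c, dist (f x) (f y) = dist x y) ∧
    f '' (⋃ c ∈ S, cell c) = cubeSurface l ∧
    Set.InjOn f (⋃ c ∈ S, openCell c)

/-- A rep-cube of order `k`. -/
def RepCube (k : ℕ) : Prop :=
  ∃ P : Finset (ℤ × ℤ), IsPolyomino P ∧ Folds P ∧
    ∃ piece : Fin k → Finset (ℤ × ℤ), (∀ i, IsPolyomino (piece i) ∧ Folds (piece i)) ∧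
      (∀ i j, i ≠ j → Disjoint (piece i) (piece j)) ∧ ∀ c, c ∈ P ↔ ∃ i, c ∈ piece i

/-! ### Combinatorial certificates -/

abbrev Z3 := ℤ × ℤ × ℤ

def pm (a : ℤ) : Prop := a = 1 ∨ a = -1

instance (a : ℤ) : Decidable (pm a) := by unfold pm; infer_instance

def Frame (u v : Z3) : Prop :=
  (pm u.1 ∧ u.2.1 = 0 ∧ u.2.2 = 0 ∧ v.1 = 0 ∧ pm v.2.1 ∧ v.2.2 = 0) ∨
  (pm u.1 ∧ u.2.1 = 0 ∧ u.2.2 = 0 ∧ v.1 = 0 ∧ v.2.1 = 0 ∧ pm v.2.2) ∨
  (u.1 = 0 ∧ pm u.2.1 ∧ u.2.2 = 0 ∧ pm v.1 ∧ v.2.1 = 0 ∧ v.2.2 = 0) ∨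
  (u.1 = 0 ∧ pm u.2.1 ∧ u.2.2 = 0 ∧ v.1 = 0 ∧ v.2.1 = 0 ∧ pm v.2.2) ∨
  (u.1 = 0 ∧ u.2.1 = 0 ∧ pm u.2.2 ∧ pm v.1 ∧ v.2.1 = 0 ∧ v.2.2 = 0) ∨
  (u.1 = 0 ∧ u.2.1 = 0 ∧ pm u.2.2 ∧ v.1 = 0 ∧ pm v.2.1 ∧ v.2.2 = 0)

instance (u v : Z3) : Decidable (Frame u v) := by unfold Frame; infer_instance

def Sq (V : ℤ → ℤ → Z3) (c : ℤ × ℤ) : Prop :=
  Frame (V (c.1 + 1) c.2 - V c.1 c.2) (V c.1 (c.2 + 1) - V c.1 c.2) ∧
    V (c.1 + 1) (c.2 + 1) + V c.1 c.2 = V (c.1 + 1) c.2 + V c.1 (c.2 + 1)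

instance (V : ℤ → ℤ → Z3) (c : ℤ × ℤ) : Decidable (Sq V c) := by unfold Sq; infer_instance

def Mid (V : ℤ → ℤ → Z3) (c : ℤ × ℤ) : Z3 := V (c.1 + 1) c.2 + V c.1 (c.2 + 1)

def od (L a : ℤ) : Prop := a % 2 = 1 ∧ 0 < a ∧ a < 2 * L

instance (L a : ℤ) : Decidable (od L a) := by unfold od; infer_instance

def en (L a : ℤ) : Prop := a = 0 ∨ a = 2 * L

instance (L a : ℤ) : Decidable (en L a) := by unfold en; infer_instance

def InZ (L : ℤ) (z : Z3) : Prop :=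
  (en L z.1 ∧ od L z.2.1 ∧ od L z.2.2) ∨ (od L z.1 ∧ en L z.2.1 ∧ od L z.2.2) ∨
    (od L z.1 ∧ od L z.2.1 ∧ en L z.2.2)

instance (L : ℤ) (z : Z3) : Decidable (InZ L z) := by unfold InZ; infer_instance

def Cert (S : Finset (ℤ × ℤ)) (L : ℤ) (V : ℤ → ℤ → Z3) : Prop :=
  (∀ c ∈ S, Sq V c ∧ InZ L (Mid V c)) ∧ (∀ c ∈ S, ∀ d ∈ S, Mid V c = Mid V d → c = d) ∧
    ∀ z, InZ L z → ∃ c ∈ S, Mid V c = z

noncomputable def ip (g : ℤ → ℤ → ℤ) (x y : ℝ) : ℝ :=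
  (1 - (x - ⌊x⌋)) * (1 - (y - ⌊y⌋)) * g ⌊x⌋ ⌊y⌋ + (x - ⌊x⌋) * (1 - (y - ⌊y⌋)) * g (⌊x⌋ + 1) ⌊y⌋ +
    (1 - (x - ⌊x⌋)) * (y - ⌊y⌋) * g ⌊x⌋ (⌊y⌋ + 1) + (x - ⌊x⌋) * (y - ⌊y⌋) * g (⌊x⌋ + 1) (⌊y⌋ + 1)

lemma fl (a : ℤ) (x : ℝ) (h1 : (a : ℝ) ≤ x) (h2 : x ≤ (a : ℝ) + 1) :
    ⌊x⌋ = a ∨ (⌊x⌋ = a + 1 ∧ x = (a : ℝ) + 1) := by
  rcases h2.lt_or_eq with h | h
  · exact Or.inl (Int.floor_eq_iff.2 ⟨h1, h⟩)
  · right
    refine ⟨?_, h⟩
    rw [h]; simp

lemma ip_eq (g : ℤ → ℤ → ℤ) (a b : ℤ) (x y : ℝ) (h1 : (a : ℝ) ≤ x) (h2 : x ≤ (a : ℝ) + 1)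
    (h3 : (b : ℝ) ≤ y) (h4 : y ≤ (b : ℝ) + 1)
    (hp : g (a + 1) (b + 1) + g a b = g (a + 1) b + g a (b + 1)) :
    2 * ip g x y = ((g (a + 1) b + g a (b + 1) : ℤ) : ℝ) +
      (2 * (x - a) - 1) * ((g (a + 1) b - g a b : ℤ) : ℝ) +
      (2 * (y - b) - 1) * ((g a (b + 1) - g a b : ℤ) : ℝ) := by
  have hp' : (g (a + 1) (b + 1) : ℝ) = g (a + 1) b + g a (b + 1) - g a b := by
    have : ((g (a + 1) (b + 1) + g a b : ℤ) : ℝ) = ((g (a + 1) b + g a (b + 1) : ℤ) : ℝ) := by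
      rw [hp]
    push_cast at this; linarith
  unfold ip
  rcases fl a x h1 h2 with hx | ⟨hx, hx'⟩ <;> rcases fl b y h3 h4 with hy | ⟨hy, hy'⟩
  · rw [hx, hy, hp']; push_cast; ring
  · rw [hx, hy, hp', hy']; push_cast; ring
  · rw [hx, hy, hp', hx']; push_cast; ring
  · rw [hx, hy, hp', hx', hy']; push_cast; ring

noncomputable def fm (V : ℤ → ℤ → Z3) (x : EuclideanSpace ℝ (Fin 2)) :
    EuclideanSpace ℝ (Fin 3) :=
  !₂[ip (fun a b => (V a b).1) (x 0) (x 1), ip (fun a b => (V a b).2.1) (x 0) (x 1),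
    ip (fun a b => (V a b).2.2) (x 0) (x 1)]

/-- Data of a cell: midpoint `m`, frame `u v`, and the affine formula. -/
lemma fm_eq (V : ℤ → ℤ → Z3) (c : ℤ × ℤ) (h : Sq V c) :
    ∃ u v w : Z3, Frame u v ∧ Mid V c = w + w + u + v ∧ ∀ x ∈ cell c,
      2 * fm V x 0 = ((Mid V c).1 : ℝ) + (2 * (x 0 - c.1) - 1) * u.1 + (2 * (x 1 - c.2) - 1) * v.1 ∧
      2 * fm V x 1 = ((Mid V c).2.1 : ℝ) + (2 * (x 0 - c.1) - 1) * u.2.1 +
        (2 * (x 1 - c.2) - 1) * v.2.1 ∧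
      2 * fm V x 2 = ((Mid V c).2.2 : ℝ) + (2 * (x 0 - c.1) - 1) * u.2.2 +
        (2 * (x 1 - c.2) - 1) * v.2.2 := by
  refine ⟨_, _, V c.1 c.2, h.1, ?_, ?_⟩
  · unfold Mid; abel
  · rintro x ⟨h1, h2, h3, h4⟩
    have e := h.2
    refine ⟨?_, ?_, ?_⟩
    · exact ip_eq (fun a b => (V a b).1) c.1 c.2 _ _ h1 h2 h3 h4 (congrArg (·.1) e)
    · exact ip_eq (fun a b => (V a b).2.1) c.1 c.2 _ _ h1 h2 h3 h4 (congrArg (·.2.1) e)
    · exact ip_eq (fun a b => (V a b).2.2) c.1 c.2 _ _ h1 h2 h3 h4 (congrArg (·.2.2) e)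

lemma pm_sq {a : ℤ} (h : pm a) : (a : ℝ) * a = 1 := by
  rcases h with rfl | rfl <;> simp

lemma iso (V : ℤ → ℤ → Z3) (c : ℤ × ℤ) (h : Sq V c) (x : EuclideanSpace ℝ (Fin 2))
    (hx : x ∈ cell c) (y : EuclideanSpace ℝ (Fin 2)) (hy : y ∈ cell c) :
    dist (fm V x) (fm V y) = dist x y := by
  obtain ⟨⟨u1, u2, u3⟩, ⟨v1, v2, v3⟩, w, hf, -, hh⟩ := fm_eq V c h
  obtain ⟨a1, a2, a3⟩ := hh x hx
  obtain ⟨b1, b2, b3⟩ := hh y hy
  rw [EuclideanSpace.dist_eq, EuclideanSpace.dist_eq]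
  congr 1
  simp only [Fin.sum_univ_three, Fin.sum_univ_two, Real.dist_eq, sq_abs]
  have e1 : fm V x 0 - fm V y 0 = (x 0 - y 0) * u1 + (x 1 - y 1) * v1 := by
    simp only at a1 b1; linarith
  have e2 : fm V x 1 - fm V y 1 = (x 0 - y 0) * u2 + (x 1 - y 1) * v2 := by
    simp only at a2 b2; linarith
  have e3 : fm V x 2 - fm V y 2 = (x 0 - y 0) * u3 + (x 1 - y 1) * v3 := by
    simp only at a3 b3; linarith
  rw [e1, e2, e3]
  simp only [Frame, pm] at hf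
  rcases hf with ⟨h1 | h1, h2, h3, h4, h5 | h5, h6⟩ | ⟨h1 | h1, h2, h3, h4, h5, h6 | h6⟩ |
    ⟨h1, h2 | h2, h3, h4 | h4, h5, h6⟩ | ⟨h1, h2 | h2, h3, h4, h5, h6 | h6⟩ |
    ⟨h1, h2, h3 | h3, h4 | h4, h5, h6⟩ | ⟨h1, h2, h3 | h3, h4, h5 | h5, h6⟩ <;>
    subst h1 h2 h3 h4 h5 h6 <;> push_cast <;> ring

/-- coordinatewise shape of a frame -/
def co (u v : ℤ) : Prop := (u = 0 ∧ v = 0) ∨ (pm u ∧ v = 0) ∨ (u = 0 ∧ pm v)

lemma Frame.co {u v : Z3} (h : Frame u v) : co u.1 v.1 ∧ co u.2.1 v.2.1 ∧ co u.2.2 v.2.2 := by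
  unfold AllLarge.co
  rcases h with h | h | h | h | h | h <;> tauto

lemma co_closed {u v w m : ℤ} {t s r : ℝ} (h : co u v) (hm : m = w + w + u + v)
    (ht : |t| ≤ 1) (hs : |s| ≤ 1) (hr : r = m + t * u + s * v) :
    (m % 2 = 0 → r = m) ∧ (m : ℝ) - 1 ≤ r ∧ r ≤ m + 1 := by
  have ht' := abs_le.1 ht
  have hs' := abs_le.1 hs
  rcases h with ⟨rfl, rfl⟩ | ⟨rfl | rfl, rfl⟩ | ⟨rfl, rfl | rfl⟩ <;>
    refine ⟨fun h => ?_, ?_, ?_⟩ <;> first | omega | (push_cast at hr; linarith)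

lemma co_open {u v w m : ℤ} {t s r : ℝ} (h : co u v) (hm : m = w + w + u + v)
    (ht : |t| < 1) (hs : |s| < 1) (hr : r = m + t * u + s * v) :
    (m % 2 = 0 → r = m) ∧ (m : ℝ) - 1 < r ∧ r < m + 1 := by
  have ht' := abs_lt.1 ht
  have hs' := abs_lt.1 hs
  rcases h with ⟨rfl, rfl⟩ | ⟨rfl | rfl, rfl⟩ | ⟨rfl, rfl | rfl⟩ <;>
    refine ⟨fun h => ?_, ?_, ?_⟩ <;> first | omega | (push_cast at hr; linarith)

lemma same {m n : ℤ} {r : ℝ} (h : (m % 2 = 0 → r = m) ∧ (m : ℝ) - 1 < r ∧ r < m + 1)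
    (h' : (n % 2 = 0 → r = n) ∧ (n : ℝ) - 1 < r ∧ r < n + 1) : m = n := by
  obtain ⟨a, b, c⟩ := h
  obtain ⟨a', b', c'⟩ := h'
  have e1 : m < n + 2 := by
    have : (m : ℝ) < n + 2 := by linarith
    exact_mod_cast this
  have e2 : n < m + 2 := by
    have : (n : ℝ) < m + 2 := by linarith
    exact_mod_cast this
  by_cases hm : m % 2 = 0
  · have := a hm
    have e3 : n < m + 1 := by
      have : (n : ℝ) < m + 1 := by linarith
      exact_mod_cast this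
    have e4 : m < n + 1 := by
      have : (m : ℝ) < n + 1 := by linarith
      exact_mod_cast this
    omega
  · by_cases hn : n % 2 = 0
    · have := a' hn
      have e3 : n < m + 1 := by
        have : (n : ℝ) < m + 1 := by linarith
        exact_mod_cast this
      have e4 : m < n + 1 := by
        have : (m : ℝ) < n + 1 := by linarith
        exact_mod_cast this
      omega
    · omega

lemma rng {L m : ℤ} {y : ℝ} (hL : 0 < L) (h : en L m ∨ od L m)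
    (k : (m % 2 = 0 → 2 * y = m) ∧ (m : ℝ) - 1 ≤ 2 * y ∧ 2 * y ≤ m + 1) :
    (0 ≤ y ∧ y ≤ L) ∧ (en L m → y = 0 ∨ y = L) := by
  obtain ⟨a, b, c⟩ := k
  have hL' : (0 : ℝ) < L := by exact_mod_cast hL
  have hen : en L m → y = 0 ∨ y = L := by
    rintro (h | h)
    · have := a (by omega)
      rw [h] at this; left; push_cast at this; linarith
    · have := a (by omega)
      rw [h] at this; right; push_cast at this; linarith
  refine ⟨?_, hen⟩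
  rcases h with h | ⟨h1, h2, h3⟩
  · rcases hen h with h | h <;> rw [h] <;> constructor <;> linarith
  · have e1 : (1 : ℝ) ≤ m := by exact_mod_cast h2
    have e2 : (m : ℝ) + 1 ≤ 2 * L := by
      have : m + 1 ≤ 2 * L := by omega
      exact_mod_cast this
    constructor <;> linarith

lemma pick {L : ℤ} {y : ℝ} (hL : 0 < L) (h0 : 0 ≤ y) (h1 : y ≤ L) :
    ∃ m : ℤ, od L m ∧ |2 * y - m| ≤ 1 := by
  rcases h1.lt_or_eq with h | h
  · have a := Int.floor_le y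
    have b := Int.lt_floor_add_one y
    have c : 0 ≤ ⌊y⌋ := Int.floor_nonneg.2 h0
    have d : ⌊y⌋ < L := Int.floor_lt.2 h
    refine ⟨2 * ⌊y⌋ + 1, ⟨by omega, by omega, by omega⟩, ?_⟩
    rw [abs_le]; push_cast; constructor <;> linarith
  · refine ⟨2 * L - 1, ⟨by omega, by omega, by omega⟩, ?_⟩
    rw [abs_le]; push_cast; constructor <;> linarith

lemma pick0 {L : ℤ} {y : ℝ} (h : y = 0 ∨ y = L) : ∃ m : ℤ, en L m ∧ 2 * y - m = 0 := by
  rcases h with h | h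
  · exact ⟨0, Or.inl rfl, by rw [h]; simp⟩
  · exact ⟨2 * L, Or.inr rfl, by rw [h]; simp⟩

lemma solve (u v w : Z3) (hf : Frame u v) (m : Z3) (hm : m = w + w + u + v) (r1 r2 r3 : ℝ)
    (h1 : |r1| ≤ 1) (h2 : |r2| ≤ 1) (h3 : |r3| ≤ 1) (k1 : m.1 % 2 = 0 → r1 = 0)
    (k2 : m.2.1 % 2 = 0 → r2 = 0) (k3 : m.2.2 % 2 = 0 → r3 = 0) :
    ∃ t s : ℝ, |t| ≤ 1 ∧ |s| ≤ 1 ∧ r1 = t * u.1 + s * v.1 ∧ r2 = t * u.2.1 + s * v.2.1 ∧
      r3 = t * u.2.2 + s * v.2.2 := by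
  obtain ⟨u1, u2, u3⟩ := u
  obtain ⟨v1, v2, v3⟩ := v
  obtain ⟨w1, w2, w3⟩ := w
  subst hm
  simp only [Prod.mk_add_mk] at k1 k2 k3
  refine ⟨r1 * u1 + r2 * u2 + r3 * u3, r1 * v1 + r2 * v2 + r3 * v3, ?_⟩
  simp only [Frame, pm] at hf
  rcases hf with ⟨a1 | a1, a2, a3, a4, a5 | a5, a6⟩ | ⟨a1 | a1, a2, a3, a4, a5, a6 | a6⟩ |
    ⟨a1, a2 | a2, a3, a4 | a4, a5, a6⟩ | ⟨a1, a2 | a2, a3, a4, a5, a6 | a6⟩ |
    ⟨a1, a2, a3 | a3, a4 | a4, a5, a6⟩ | ⟨a1, a2, a3 | a3, a4, a5 | a5, a6⟩ <;>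
    subst a1 a2 a3 a4 a5 a6 <;>
    first
    | (have := k3 (by omega); simp [h1, h2, this])
    | (have := k2 (by omega); simp [h1, h3, this])
    | (have := k1 (by omega); simp [h2, h3, this])

theorem Cert.folds {S : Finset (ℤ × ℤ)} {L : ℤ} {V : ℤ → ℤ → Z3} (hL : 0 < L)
    (h : Cert S L V) : Folds S := by
  obtain ⟨h1, h2, h3⟩ := h
  refine ⟨L, by exact_mod_cast hL, fm V, fun c hc x hx y hy => iso V c (h1 c hc).1 x hx y hy,
    ?_, ?_⟩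
  · apply Set.Subset.antisymm
    · rintro _ ⟨x, hx, rfl⟩
      simp only [Set.mem_iUnion] at hx
      obtain ⟨c, hc, hx⟩ := hx
      obtain ⟨u, v, w, hf, hm, hh⟩ := fm_eq V c (h1 c hc).1
      obtain ⟨a1, a2, a3⟩ := hh x hx
      obtain ⟨c1, c2, c3⟩ := hf.co
      obtain ⟨x1, x2, x3, x4⟩ := hx
      have ht : |2 * (x 0 - c.1) - 1| ≤ 1 := by rw [abs_le]; constructor <;> linarith
      have hs : |2 * (x 1 - c.2) - 1| ≤ 1 := by rw [abs_le]; constructor <;> linarith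
      have k1 := co_closed c1 (congrArg (·.1) hm) ht hs a1
      have k2 := co_closed c2 (congrArg (·.2.1) hm) ht hs a2
      have k3 := co_closed c3 (congrArg (·.2.2) hm) ht hs a3
      have hz := (h1 c hc).2
      have r1 := rng hL (by unfold InZ at hz; tauto) k1
      have r2 := rng hL (by unfold InZ at hz; tauto) k2
      have r3 := rng hL (by unfold InZ at hz; tauto) k3
      refine ⟨fun i => ?_, ?_⟩
      · fin_cases i
        · exact r1.1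
        · exact r2.1
        · exact r3.1
      · rcases hz with hz | hz | hz
        · exact ⟨0, r1.2 hz.1⟩
        · exact ⟨1, r2.2 hz.2.1⟩
        · exact ⟨2, r3.2 hz.2.2⟩
    · rintro y ⟨hy, i, hi⟩
      have key : ∃ z : Z3, InZ L z ∧ |2 * y 0 - z.1| ≤ 1 ∧ |2 * y 1 - z.2.1| ≤ 1 ∧
          |2 * y 2 - z.2.2| ≤ 1 ∧ (z.1 % 2 = 0 → 2 * y 0 - z.1 = 0) ∧
          (z.2.1 % 2 = 0 → 2 * y 1 - z.2.1 = 0) ∧ (z.2.2 % 2 = 0 → 2 * y 2 - z.2.2 = 0) := by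
        obtain ⟨m0, o0, p0⟩ := pick hL (hy 0).1 (hy 0).2
        obtain ⟨m1, o1, p1⟩ := pick hL (hy 1).1 (hy 1).2
        obtain ⟨m2, o2, p2⟩ := pick hL (hy 2).1 (hy 2).2
        have q0 := o0.1
        have q1 := o1.1
        have q2 := o2.1
        obtain ⟨m, e, p⟩ := pick0 hi
        fin_cases i
        · exact ⟨(m, m1, m2), Or.inl ⟨e, o1, o2⟩, by simp at p ⊢; simp [p], p1, p2, fun _ => p,
            fun h => by simp at h; omega, fun h => by simp at h; omega⟩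
        · exact ⟨(m0, m, m2), Or.inr (Or.inl ⟨o0, e, o2⟩), p0, by simp at p ⊢; simp [p], p2,
            fun h => by simp at h; omega, fun _ => p, fun h => by simp at h; omega⟩
        · exact ⟨(m0, m1, m), Or.inr (Or.inr ⟨o0, o1, e⟩), p0, p1, by simp at p ⊢; simp [p],
            fun h => by simp at h; omega, fun h => by simp at h; omega, fun _ => p⟩
      obtain ⟨z, hz, b1, b2, b3, d1, d2, d3⟩ := key
      obtain ⟨c, hc, rfl⟩ := h3 z hz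
      obtain ⟨u, v, w, hf, hm, hh⟩ := fm_eq V c (h1 c hc).1
      obtain ⟨t, s, ht, hs, e1, e2, e3⟩ := solve u v w hf _ hm _ _ _ b1 b2 b3 d1 d2 d3
      have ht' := abs_le.1 ht
      have hs' := abs_le.1 hs
      have hx : (!₂[c.1 + (t + 1) / 2, c.2 + (s + 1) / 2] : EuclideanSpace ℝ (Fin 2)) ∈ cell c := by
        refine ⟨?_, ?_, ?_, ?_⟩ <;> simp <;> linarith
      refine ⟨_, Set.mem_iUnion₂.2 ⟨c, hc, hx⟩, ?_⟩
      obtain ⟨a1, a2, a3⟩ := hh _ hx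
      simp only [Matrix.cons_val_zero, Matrix.cons_val_one] at a1 a2 a3
      ext j
      fin_cases j
      · show fm V _ 0 = y 0
        nlinarith
      · show fm V _ 1 = y 1
        nlinarith
      · show fm V _ 2 = y 2
        nlinarith
  · intro x hx y hy hxy
    simp only [Set.mem_iUnion] at hx hy
    obtain ⟨c, hc, hx⟩ := hx
    obtain ⟨d, hd, hy⟩ := hy
    have op : ∀ c ∈ S, ∀ x ∈ openCell c, x ∈ cell c ∧
        (((Mid V c).1 % 2 = 0 → 2 * fm V x 0 = (Mid V c).1) ∧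
          ((Mid V c).1 : ℝ) - 1 < 2 * fm V x 0 ∧ 2 * fm V x 0 < (Mid V c).1 + 1) ∧
        (((Mid V c).2.1 % 2 = 0 → 2 * fm V x 1 = (Mid V c).2.1) ∧
          ((Mid V c).2.1 : ℝ) - 1 < 2 * fm V x 1 ∧ 2 * fm V x 1 < (Mid V c).2.1 + 1) ∧
        (((Mid V c).2.2 % 2 = 0 → 2 * fm V x 2 = (Mid V c).2.2) ∧
          ((Mid V c).2.2 : ℝ) - 1 < 2 * fm V x 2 ∧ 2 * fm V x 2 < (Mid V c).2.2 + 1) := by
      rintro c hc x ⟨x1, x2, x3, x4⟩
      have hx : x ∈ cell c := ⟨x1.le, x2.le, x3.le, x4.le⟩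
      obtain ⟨u, v, w, hf, hm, hh⟩ := fm_eq V c (h1 c hc).1
      obtain ⟨a1, a2, a3⟩ := hh x hx
      obtain ⟨c1, c2, c3⟩ := hf.co
      have ht : |2 * (x 0 - c.1) - 1| < 1 := by rw [abs_lt]; constructor <;> linarith
      have hs : |2 * (x 1 - c.2) - 1| < 1 := by rw [abs_lt]; constructor <;> linarith
      exact ⟨hx, co_open c1 (congrArg (·.1) hm) ht hs a1,
        co_open c2 (congrArg (·.2.1) hm) ht hs a2, co_open c3 (congrArg (·.2.2) hm) ht hs a3⟩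
    obtain ⟨x0, x1, x2, x3⟩ := op c hc x hx
    obtain ⟨y0, y1, y2, y3⟩ := op d hd y hy
    rw [hxy] at x1 x2 x3
    have hcd : c = d := h2 c hc d hd
      (Prod.ext (same x1 y1) (Prod.ext (same x2 y2) (same x3 y3)))
    subst hcd
    have := iso V c (h1 c hc).1 x x0 y y0
    rw [hxy, dist_self] at this
    exact dist_eq_zero.1 this.symm

lemma Cert.of_surj {S : Finset (ℤ × ℤ)} {n : ℕ} {V : ℤ → ℤ → Z3}
    (h1 : ∀ c ∈ S, Sq V c ∧ InZ n (Mid V c)) (h3 : ∀ z, InZ n z → ∃ c ∈ S, Mid V c = z)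
    (hc : S.card ≤ 6 * n ^ 2) : Cert S n V := by
  refine ⟨h1, ?_, h3⟩
  let par : ℕ × ℕ × ℕ → Z3 := fun p =>
    if p.1 = 0 then (0, 2 * p.2.1 + 1, 2 * p.2.2 + 1)
    else if p.1 = 1 then (2 * n, 2 * p.2.1 + 1, 2 * p.2.2 + 1)
    else if p.1 = 2 then (2 * p.2.1 + 1, 0, 2 * p.2.2 + 1)
    else if p.1 = 3 then (2 * p.2.1 + 1, 2 * n, 2 * p.2.2 + 1)
    else if p.1 = 4 then (2 * p.2.1 + 1, 2 * p.2.2 + 1, 0)
    else (2 * p.2.1 + 1, 2 * p.2.2 + 1, 2 * n)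
  have hle : (Finset.range 6 ×ˢ Finset.range n ×ˢ Finset.range n).card ≤
      (S.image (Mid V)).card := by
    apply Finset.card_le_card_of_injOn par
    · rintro ⟨i, a, b⟩ hp
      simp only [Finset.coe_product, Finset.coe_range, Set.mem_prod, Set.mem_Iio] at hp
      obtain ⟨c, hc, e⟩ := h3 (par (i, a, b)) (by
        simp only [par, InZ, en, od]
        split_ifs <;> simp only [true_and, and_true, true_or, or_true] <;> omega)
      exact Finset.mem_coe.2 (Finset.mem_image.2 ⟨c, hc, e⟩)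
    · rintro ⟨i, a, b⟩ hp ⟨j, c, d⟩ hq e
      simp only [Finset.coe_product, Finset.coe_range, Set.mem_prod, Set.mem_Iio] at hp hq
      simp only [par] at e
      simp only [Prod.mk.injEq]
      split_ifs at e <;> simp only [Prod.mk.injEq] at e <;> omega
  simp only [Finset.card_product, Finset.card_range] at hle
  have : (S.image (Mid V)).card = S.card :=
    le_antisymm Finset.card_image_le (by nlinarith)
  intro c hc d hd e
  exact Finset.injOn_of_card_image_eq this hc hd e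

lemma Cert.shift {S T : Finset (ℤ × ℤ)} {L : ℤ} {V : ℤ → ℤ → Z3} (h : Cert S L V) (a b : ℤ)
    (hT : ∀ x y, (x, y) ∈ T ↔ (x - a, y - b) ∈ S) :
    Cert T L (fun x y => V (x - a) (y - b)) := by
  obtain ⟨h1, h2, h3⟩ := h
  have e1 : ∀ x a : ℤ, x + 1 - a = x - a + 1 := fun x a => by ring
  have hm : ∀ x y, Mid (fun x y => V (x - a) (y - b)) (x, y) = Mid V (x - a, y - b) := by
    intro x y; simp only [Mid, e1]
  refine ⟨?_, ?_, ?_⟩
  · rintro ⟨x, y⟩ hc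
    have := h1 _ ((hT x y).1 hc)
    rw [hm]
    refine ⟨?_, this.2⟩
    have h := this.1
    simp only [Sq, e1] at h ⊢
    exact h
  · rintro ⟨x, y⟩ hc ⟨x', y'⟩ hd e
    rw [hm, hm] at e
    have := h2 _ ((hT x y).1 hc) _ ((hT x' y').1 hd) e
    simp only [Prod.mk.injEq] at this ⊢
    omega
  · intro z hz
    obtain ⟨⟨x, y⟩, hc, e⟩ := h3 z hz
    refine ⟨(x + a, y + b), (hT _ _).2 (by simpa using hc), ?_⟩
    rw [hm]; simpa using e

lemma poly_of_rank {S : Finset (ℤ × ℤ)} (r : ℤ × ℤ) (hr : r ∈ S) (rk : ℤ × ℤ → ℕ)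
    (h : ∀ a ∈ S, a = r ∨ ∃ b ∈ S, Adj a b ∧ rk b < rk a) : IsPolyomino S := by
  have key : ∀ n, ∀ a ∈ S, rk a < n →
      Relation.ReflTransGen (fun p q => p ∈ S ∧ q ∈ S ∧ Adj p q) a r ∧
      Relation.ReflTransGen (fun p q => p ∈ S ∧ q ∈ S ∧ Adj p q) r a := by
    intro n
    induction n with
    | zero => intro a _ h; omega
    | succ n ih =>
      intro a ha hn
      rcases h a ha with rfl | ⟨b, hb, hab, hlt⟩
      · exact ⟨.refl, .refl⟩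
      · obtain ⟨i1, i2⟩ := ih b hb (by omega)
        refine ⟨.head ⟨ha, hb, hab⟩ i1, .tail i2 ⟨hb, ha, ?_⟩⟩
        unfold Adj at hab ⊢
        omega
  exact ⟨⟨r, hr⟩, fun a ha b hb =>
    (key _ a ha (Nat.lt_succ_self _)).1.trans (key _ b hb (Nat.lt_succ_self _)).2⟩

lemma IsPolyomino.shift {S T : Finset (ℤ × ℤ)} (h : IsPolyomino S) (a b : ℤ)
    (hT : ∀ x y, (x, y) ∈ T ↔ (x - a, y - b) ∈ S) : IsPolyomino T := by
  obtain ⟨⟨⟨x, y⟩, hx⟩, h2⟩ := h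
  refine ⟨⟨(x + a, y + b), (hT _ _).2 (by simpa using hx)⟩, ?_⟩
  rintro ⟨p, q⟩ hp ⟨r, s⟩ hr
  have := h2 _ ((hT _ _).1 hp) _ ((hT _ _).1 hr)
  have k : ∀ c d : ℤ × ℤ, Relation.ReflTransGen (fun p q => p ∈ S ∧ q ∈ S ∧ Adj p q) c d →
      Relation.ReflTransGen (fun p q => p ∈ T ∧ q ∈ T ∧ Adj p q) (c.1 + a, c.2 + b)
        (d.1 + a, d.2 + b) := by
    intro c d hcd
    induction hcd with
    | refl => exact .refl
    | tail _ i ih =>
      obtain ⟨i1, i2, i3⟩ := i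
      refine ih.tail ⟨(hT _ _).2 (by simpa using i1), (hT _ _).2 (by simpa using i2), ?_⟩
      unfold Adj at i3 ⊢
      simp only
      omega
  simpa using k _ _ this

/-- The vertex map of the thickened T-shaped net of the cube of side `L`. -/
def VV (L x y : ℤ) : Z3 :=
  if L < y then
    if x < 0 then (0, y - L, L + x)
    else if x ≤ L then (if y ≤ 2 * L then (x, y - L, L) else (x, L, 3 * L - y))
    else if x ≤ L + 1 then (L, y - L, 2 * L - x)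
    else if x ≤ 2 * L then (2 * L - y, x - L, L)
    else if x ≤ 3 * L then (3 * L - x, 2 * L - y, L)
    else (y - L, 4 * L - x, L)
  else if 0 ≤ y then
    if x < 0 then (0, -x, y)
    else if x ≤ L then (x, 0, y)
    else if x ≤ 2 * L then (L, x - L, y)
    else if x ≤ 3 * L then (3 * L - x, L, y)
    else if x ≤ 4 * L then (0, 4 * L - x, y)
    else (x - 4 * L, 0, y)
  else
    if x < 0 then (0, -y, -x)
    else if x ≤ L then (if -L ≤ y then (x, -y, 0) else (x, L, -L - y))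
    else if y ≤ -2 then (L, -y, x - L)
    else if x ≤ 2 * L then (L + y, x - L, 0)
    else if x ≤ 3 * L then (3 * L - x, L + y, 0)
    else (-y, 4 * L - x, 0)

lemma vF0 {L x y : ℤ} (hL : 2 ≤ L) (h : 0 ≤ x ∧ x ≤ L ∧ 0 ≤ y ∧ y ≤ L) :
    VV L x y = (x, 0, y) := by
  unfold VV
  split_ifs <;> simp only [Prod.mk.injEq, true_and, and_true] <;> omega

lemma cF0 {L x y : ℤ} (hL : 2 ≤ L) (h : 0 ≤ x ∧ x < L ∧ 0 ≤ y ∧ y < L) :
    Sq (VV L) (x, y) ∧ Mid (VV L) (x, y) = (2 * x + 1, 0, 2 * y + 1) := by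
  simp only [Sq, Mid]
  rw [vF0 (x := x) (y := y) hL (by omega), vF0 (x := x + 1) (y := y) hL (by omega),
    vF0 (x := x) (y := y + 1) hL (by omega), vF0 (x := x + 1) (y := y + 1) hL (by omega)]
  simp only [Frame, pm, Prod.mk_add_mk, Prod.mk_sub_mk, Prod.mk.injEq, true_and, and_true,
    true_or, or_true]
  omega

lemma vF1 {L x y : ℤ} (hL : 2 ≤ L) (h : L ≤ x ∧ x ≤ 2 * L ∧ 0 ≤ y ∧ y ≤ L) :
    VV L x y = (L, x - L, y) := by
  unfold VV
  split_ifs <;> simp only [Prod.mk.injEq, true_and, and_true] <;> omega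

lemma cF1 {L x y : ℤ} (hL : 2 ≤ L) (h : L ≤ x ∧ x < 2 * L ∧ 0 ≤ y ∧ y < L) :
    Sq (VV L) (x, y) ∧ Mid (VV L) (x, y) = (2 * L, 2 * (x - L) + 1, 2 * y + 1) := by
  simp only [Sq, Mid]
  rw [vF1 (x := x) (y := y) hL (by omega), vF1 (x := x + 1) (y := y) hL (by omega),
    vF1 (x := x) (y := y + 1) hL (by omega), vF1 (x := x + 1) (y := y + 1) hL (by omega)]
  simp only [Frame, pm, Prod.mk_add_mk, Prod.mk_sub_mk, Prod.mk.injEq, true_and, and_true,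
    true_or, or_true]
  omega

lemma vF2 {L x y : ℤ} (hL : 2 ≤ L) (h : 2 * L ≤ x ∧ x ≤ 3 * L ∧ 0 ≤ y ∧ y ≤ L) :
    VV L x y = (3 * L - x, L, y) := by
  unfold VV
  split_ifs <;> simp only [Prod.mk.injEq, true_and, and_true] <;> omega

lemma cF2 {L x y : ℤ} (hL : 2 ≤ L) (h : 2 * L ≤ x ∧ x < 3 * L ∧ 0 ≤ y ∧ y < L) :
    Sq (VV L) (x, y) ∧ Mid (VV L) (x, y) = (6 * L - 2 * x - 1, 2 * L, 2 * y + 1) := by
  simp only [Sq, Mid]
  rw [vF2 (x := x) (y := y) hL (by omega), vF2 (x := x + 1) (y := y) hL (by omega),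
    vF2 (x := x) (y := y + 1) hL (by omega), vF2 (x := x + 1) (y := y + 1) hL (by omega)]
  simp only [Frame, pm, Prod.mk_add_mk, Prod.mk_sub_mk, Prod.mk.injEq, true_and, and_true,
    true_or, or_true]
  omega

lemma vF3 {L x y : ℤ} (hL : 2 ≤ L) (h : 3 * L ≤ x ∧ x ≤ 4 * L ∧ 0 ≤ y ∧ y ≤ L) :
    VV L x y = (0, 4 * L - x, y) := by
  unfold VV
  split_ifs <;> simp only [Prod.mk.injEq, true_and, and_true] <;> omega

lemma cF3 {L x y : ℤ} (hL : 2 ≤ L) (h : 3 * L ≤ x ∧ x < 4 * L ∧ 0 ≤ y ∧ y < L) :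
    Sq (VV L) (x, y) ∧ Mid (VV L) (x, y) = (0, 8 * L - 2 * x - 1, 2 * y + 1) := by
  simp only [Sq, Mid]
  rw [vF3 (x := x) (y := y) hL (by omega), vF3 (x := x + 1) (y := y) hL (by omega),
    vF3 (x := x) (y := y + 1) hL (by omega), vF3 (x := x + 1) (y := y + 1) hL (by omega)]
  simp only [Frame, pm, Prod.mk_add_mk, Prod.mk_sub_mk, Prod.mk.injEq, true_and, and_true,
    true_or, or_true]
  omega

lemma vT {L x y : ℤ} (hL : 2 ≤ L) (h : 0 ≤ x ∧ x ≤ L ∧ L ≤ y ∧ y ≤ 2 * L) :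
    VV L x y = (x, y - L, L) := by
  unfold VV
  split_ifs <;> simp only [Prod.mk.injEq, true_and, and_true] <;> omega

lemma cT {L x y : ℤ} (hL : 2 ≤ L) (h : 0 ≤ x ∧ x < L ∧ L ≤ y ∧ y < 2 * L) :
    Sq (VV L) (x, y) ∧ Mid (VV L) (x, y) = (2 * x + 1, 2 * (y - L) + 1, 2 * L) := by
  simp only [Sq, Mid]
  rw [vT (x := x) (y := y) hL (by omega), vT (x := x + 1) (y := y) hL (by omega),
    vT (x := x) (y := y + 1) hL (by omega), vT (x := x + 1) (y := y + 1) hL (by omega)]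
  simp only [Frame, pm, Prod.mk_add_mk, Prod.mk_sub_mk, Prod.mk.injEq, true_and, and_true,
    true_or, or_true]
  omega

lemma vB {L x y : ℤ} (hL : 2 ≤ L) (h : 0 ≤ x ∧ x ≤ L ∧ -L ≤ y ∧ y ≤ 0) :
    VV L x y = (x, -y, 0) := by
  unfold VV
  split_ifs <;> simp only [Prod.mk.injEq, true_and, and_true] <;> omega

lemma cB {L x y : ℤ} (hL : 2 ≤ L) (h : 0 ≤ x ∧ x < L ∧ -L ≤ y ∧ y < 0) :
    Sq (VV L) (x, y) ∧ Mid (VV L) (x, y) = (2 * x + 1, -2 * y - 1, 0) := by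
  simp only [Sq, Mid]
  rw [vB (x := x) (y := y) hL (by omega), vB (x := x + 1) (y := y) hL (by omega),
    vB (x := x) (y := y + 1) hL (by omega), vB (x := x + 1) (y := y + 1) hL (by omega)]
  simp only [Frame, pm, Prod.mk_add_mk, Prod.mk_sub_mk, Prod.mk.injEq, true_and, and_true,
    true_or, or_true]
  omega

lemma vSL {L x y : ℤ} (hL : 2 ≤ L) (h : x ≤ 0 ∧ 0 ≤ y ∧ y ≤ L) :
    VV L x y = (0, -x, y) := by
  unfold VV
  split_ifs <;> simp only [Prod.mk.injEq, true_and, and_true] <;> omega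

lemma cSL {L x y : ℤ} (hL : 2 ≤ L) (h : x = -1 ∧ 0 ≤ y ∧ y < L) :
    Sq (VV L) (x, y) ∧ Mid (VV L) (x, y) = (0, 1, 2 * y + 1) := by
  simp only [Sq, Mid]
  rw [vSL (x := x) (y := y) hL (by omega), vSL (x := x + 1) (y := y) hL (by omega),
    vSL (x := x) (y := y + 1) hL (by omega), vSL (x := x + 1) (y := y + 1) hL (by omega)]
  simp only [Frame, pm, Prod.mk_add_mk, Prod.mk_sub_mk, Prod.mk.injEq, true_and, and_true,
    true_or, or_true]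
  omega

lemma vSR {L x y : ℤ} (hL : 2 ≤ L) (h : 4 * L ≤ x ∧ 0 ≤ y ∧ y ≤ L) :
    VV L x y = (x - 4 * L, 0, y) := by
  unfold VV
  split_ifs <;> simp only [Prod.mk.injEq, true_and, and_true] <;> omega

lemma cSR {L x y : ℤ} (hL : 2 ≤ L) (h : x = 4 * L ∧ 0 ≤ y ∧ y < L) :
    Sq (VV L) (x, y) ∧ Mid (VV L) (x, y) = (1, 0, 2 * y + 1) := by
  simp only [Sq, Mid]
  rw [vSR (x := x) (y := y) hL (by omega), vSR (x := x + 1) (y := y) hL (by omega),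
    vSR (x := x) (y := y + 1) hL (by omega), vSR (x := x + 1) (y := y + 1) hL (by omega)]
  simp only [Frame, pm, Prod.mk_add_mk, Prod.mk_sub_mk, Prod.mk.injEq, true_and, and_true,
    true_or, or_true]
  omega

lemma vTL {L x y : ℤ} (hL : 2 ≤ L) (h : x ≤ 0 ∧ L < y ∧ y ≤ 2 * L) :
    VV L x y = (0, y - L, L + x) := by
  unfold VV
  split_ifs <;> simp only [Prod.mk.injEq, true_and, and_true] <;> omega

lemma cTL {L x y : ℤ} (hL : 2 ≤ L) (h : x = -1 ∧ L < y ∧ y < 2 * L) :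
    Sq (VV L) (x, y) ∧ Mid (VV L) (x, y) = (0, 2 * (y - L) + 1, 2 * L - 1) := by
  simp only [Sq, Mid]
  rw [vTL (x := x) (y := y) hL (by omega), vTL (x := x + 1) (y := y) hL (by omega),
    vTL (x := x) (y := y + 1) hL (by omega), vTL (x := x + 1) (y := y + 1) hL (by omega)]
  simp only [Frame, pm, Prod.mk_add_mk, Prod.mk_sub_mk, Prod.mk.injEq, true_and, and_true,
    true_or, or_true]
  omega

lemma vTT {L x y : ℤ} (hL : 2 ≤ L) (h : 0 ≤ x ∧ x ≤ L ∧ 2 * L ≤ y) :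
    VV L x y = (x, L, 3 * L - y) := by
  unfold VV
  split_ifs <;> simp only [Prod.mk.injEq, true_and, and_true] <;> omega

lemma cTT {L x y : ℤ} (hL : 2 ≤ L) (h : 0 ≤ x ∧ x < L ∧ y = 2 * L) :
    Sq (VV L) (x, y) ∧ Mid (VV L) (x, y) = (2 * x + 1, 2 * L, 2 * L - 1) := by
  simp only [Sq, Mid]
  rw [vTT (x := x) (y := y) hL (by omega), vTT (x := x + 1) (y := y) hL (by omega),
    vTT (x := x) (y := y + 1) hL (by omega), vTT (x := x + 1) (y := y + 1) hL (by omega)]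
  simp only [Frame, pm, Prod.mk_add_mk, Prod.mk_sub_mk, Prod.mk.injEq, true_and, and_true,
    true_or, or_true]
  omega

lemma vTR {L x y : ℤ} (hL : 2 ≤ L) (h : L ≤ x ∧ x ≤ L + 1 ∧ L < y ∧ y ≤ 2 * L) :
    VV L x y = (L, y - L, 2 * L - x) := by
  unfold VV
  split_ifs <;> simp only [Prod.mk.injEq, true_and, and_true] <;> omega

lemma cTR {L x y : ℤ} (hL : 2 ≤ L) (h : x = L ∧ L < y ∧ y < 2 * L) :
    Sq (VV L) (x, y) ∧ Mid (VV L) (x, y) = (2 * L, 2 * (y - L) + 1, 2 * L - 1) := by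
  simp only [Sq, Mid]
  rw [vTR (x := x) (y := y) hL (by omega), vTR (x := x + 1) (y := y) hL (by omega),
    vTR (x := x) (y := y + 1) hL (by omega), vTR (x := x + 1) (y := y + 1) hL (by omega)]
  simp only [Frame, pm, Prod.mk_add_mk, Prod.mk_sub_mk, Prod.mk.injEq, true_and, and_true,
    true_or, or_true]
  omega

lemma vU1 {L x y : ℤ} (hL : 2 ≤ L) (h : L + 2 ≤ x ∧ x ≤ 2 * L ∧ L ≤ y) :
    VV L x y = (2 * L - y, x - L, L) := by
  unfold VV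
  split_ifs <;> simp only [Prod.mk.injEq, true_and, and_true] <;> omega

lemma cU1 {L x y : ℤ} (hL : 2 ≤ L) (h : L + 2 ≤ x ∧ x < 2 * L ∧ y = L) :
    Sq (VV L) (x, y) ∧ Mid (VV L) (x, y) = (2 * L - 1, 2 * (x - L) + 1, 2 * L) := by
  simp only [Sq, Mid]
  rw [vU1 (x := x) (y := y) hL (by omega), vU1 (x := x + 1) (y := y) hL (by omega),
    vU1 (x := x) (y := y + 1) hL (by omega), vU1 (x := x + 1) (y := y + 1) hL (by omega)]
  simp only [Frame, pm, Prod.mk_add_mk, Prod.mk_sub_mk, Prod.mk.injEq, true_and, and_true,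
    true_or, or_true]
  omega

lemma vU2 {L x y : ℤ} (hL : 2 ≤ L) (h : 2 * L < x ∧ x ≤ 3 * L ∧ L ≤ y) :
    VV L x y = (3 * L - x, 2 * L - y, L) := by
  unfold VV
  split_ifs <;> simp only [Prod.mk.injEq, true_and, and_true] <;> omega

lemma cU2 {L x y : ℤ} (hL : 2 ≤ L) (h : 2 * L < x ∧ x < 3 * L ∧ y = L) :
    Sq (VV L) (x, y) ∧ Mid (VV L) (x, y) = (6 * L - 2 * x - 1, 2 * L - 1, 2 * L) := by
  simp only [Sq, Mid]
  rw [vU2 (x := x) (y := y) hL (by omega), vU2 (x := x + 1) (y := y) hL (by omega),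
    vU2 (x := x) (y := y + 1) hL (by omega), vU2 (x := x + 1) (y := y + 1) hL (by omega)]
  simp only [Frame, pm, Prod.mk_add_mk, Prod.mk_sub_mk, Prod.mk.injEq, true_and, and_true,
    true_or, or_true]
  omega

lemma vU3 {L x y : ℤ} (hL : 2 ≤ L) (h : 3 * L < x ∧ x ≤ 4 * L ∧ L ≤ y) :
    VV L x y = (y - L, 4 * L - x, L) := by
  unfold VV
  split_ifs <;> simp only [Prod.mk.injEq, true_and, and_true] <;> omega

lemma cU3 {L x y : ℤ} (hL : 2 ≤ L) (h : 3 * L < x ∧ x < 4 * L ∧ y = L) :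
    Sq (VV L) (x, y) ∧ Mid (VV L) (x, y) = (1, 8 * L - 2 * x - 1, 2 * L) := by
  simp only [Sq, Mid]
  rw [vU3 (x := x) (y := y) hL (by omega), vU3 (x := x + 1) (y := y) hL (by omega),
    vU3 (x := x) (y := y + 1) hL (by omega), vU3 (x := x + 1) (y := y + 1) hL (by omega)]
  simp only [Frame, pm, Prod.mk_add_mk, Prod.mk_sub_mk, Prod.mk.injEq, true_and, and_true,
    true_or, or_true]
  omega

lemma vBL {L x y : ℤ} (hL : 2 ≤ L) (h : x ≤ 0 ∧ -L ≤ y ∧ y < 0) :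
    VV L x y = (0, -y, -x) := by
  unfold VV
  split_ifs <;> simp only [Prod.mk.injEq, true_and, and_true] <;> omega

lemma cBL {L x y : ℤ} (hL : 2 ≤ L) (h : x = -1 ∧ -L ≤ y ∧ y < -1) :
    Sq (VV L) (x, y) ∧ Mid (VV L) (x, y) = (0, -2 * y - 1, 1) := by
  simp only [Sq, Mid]
  rw [vBL (x := x) (y := y) hL (by omega), vBL (x := x + 1) (y := y) hL (by omega),
    vBL (x := x) (y := y + 1) hL (by omega), vBL (x := x + 1) (y := y + 1) hL (by omega)]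
  simp only [Frame, pm, Prod.mk_add_mk, Prod.mk_sub_mk, Prod.mk.injEq, true_and, and_true,
    true_or, or_true]
  omega

lemma vBB {L x y : ℤ} (hL : 2 ≤ L) (h : 0 ≤ x ∧ x ≤ L ∧ y ≤ -L) :
    VV L x y = (x, L, -L - y) := by
  unfold VV
  split_ifs <;> simp only [Prod.mk.injEq, true_and, and_true] <;> omega

lemma cBB {L x y : ℤ} (hL : 2 ≤ L) (h : 0 ≤ x ∧ x < L ∧ y = -L - 1) :
    Sq (VV L) (x, y) ∧ Mid (VV L) (x, y) = (2 * x + 1, 2 * L, 1) := by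
  simp only [Sq, Mid]
  rw [vBB (x := x) (y := y) hL (by omega), vBB (x := x + 1) (y := y) hL (by omega),
    vBB (x := x) (y := y + 1) hL (by omega), vBB (x := x + 1) (y := y + 1) hL (by omega)]
  simp only [Frame, pm, Prod.mk_add_mk, Prod.mk_sub_mk, Prod.mk.injEq, true_and, and_true,
    true_or, or_true]
  omega

lemma vBR {L x y : ℤ} (hL : 2 ≤ L) (h : L ≤ x ∧ -L ≤ y ∧ y ≤ -2) :
    VV L x y = (L, -y, x - L) := by
  unfold VV
  split_ifs <;> simp only [Prod.mk.injEq, true_and, and_true] <;> omega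

lemma cBR {L x y : ℤ} (hL : 2 ≤ L) (h : x = L ∧ -L ≤ y ∧ y < -2) :
    Sq (VV L) (x, y) ∧ Mid (VV L) (x, y) = (2 * L, -2 * y - 1, 1) := by
  simp only [Sq, Mid]
  rw [vBR (x := x) (y := y) hL (by omega), vBR (x := x + 1) (y := y) hL (by omega),
    vBR (x := x) (y := y + 1) hL (by omega), vBR (x := x + 1) (y := y + 1) hL (by omega)]
  simp only [Frame, pm, Prod.mk_add_mk, Prod.mk_sub_mk, Prod.mk.injEq, true_and, and_true,
    true_or, or_true]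
  omega

lemma vD1 {L x y : ℤ} (hL : 2 ≤ L) (h : L < x ∧ x ≤ 2 * L ∧ -1 ≤ y ∧ y ≤ 0) :
    VV L x y = (L + y, x - L, 0) := by
  unfold VV
  split_ifs <;> simp only [Prod.mk.injEq, true_and, and_true] <;> omega

lemma cD1 {L x y : ℤ} (hL : 2 ≤ L) (h : L < x ∧ x < 2 * L ∧ y = -1) :
    Sq (VV L) (x, y) ∧ Mid (VV L) (x, y) = (2 * L - 1, 2 * (x - L) + 1, 0) := by
  simp only [Sq, Mid]
  rw [vD1 (x := x) (y := y) hL (by omega), vD1 (x := x + 1) (y := y) hL (by omega),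
    vD1 (x := x) (y := y + 1) hL (by omega), vD1 (x := x + 1) (y := y + 1) hL (by omega)]
  simp only [Frame, pm, Prod.mk_add_mk, Prod.mk_sub_mk, Prod.mk.injEq, true_and, and_true,
    true_or, or_true]
  omega

lemma vD2 {L x y : ℤ} (hL : 2 ≤ L) (h : 2 * L < x ∧ x ≤ 3 * L ∧ -1 ≤ y ∧ y ≤ 0) :
    VV L x y = (3 * L - x, L + y, 0) := by
  unfold VV
  split_ifs <;> simp only [Prod.mk.injEq, true_and, and_true] <;> omega

lemma cD2 {L x y : ℤ} (hL : 2 ≤ L) (h : 2 * L < x ∧ x < 3 * L ∧ y = -1) :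
    Sq (VV L) (x, y) ∧ Mid (VV L) (x, y) = (6 * L - 2 * x - 1, 2 * L - 1, 0) := by
  simp only [Sq, Mid]
  rw [vD2 (x := x) (y := y) hL (by omega), vD2 (x := x + 1) (y := y) hL (by omega),
    vD2 (x := x) (y := y + 1) hL (by omega), vD2 (x := x + 1) (y := y + 1) hL (by omega)]
  simp only [Frame, pm, Prod.mk_add_mk, Prod.mk_sub_mk, Prod.mk.injEq, true_and, and_true,
    true_or, or_true]
  omega

lemma vD3 {L x y : ℤ} (hL : 2 ≤ L) (h : 3 * L < x ∧ x ≤ 4 * L ∧ -1 ≤ y ∧ y ≤ 0) :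
    VV L x y = (-y, 4 * L - x, 0) := by
  unfold VV
  split_ifs <;> simp only [Prod.mk.injEq, true_and, and_true] <;> omega

lemma cD3 {L x y : ℤ} (hL : 2 ≤ L) (h : 3 * L < x ∧ x < 4 * L ∧ y = -1) :
    Sq (VV L) (x, y) ∧ Mid (VV L) (x, y) = (1, 8 * L - 2 * x - 1, 0) := by
  simp only [Sq, Mid]
  rw [vD3 (x := x) (y := y) hL (by omega), vD3 (x := x + 1) (y := y) hL (by omega),
    vD3 (x := x) (y := y + 1) hL (by omega), vD3 (x := x + 1) (y := y + 1) hL (by omega)]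
  simp only [Frame, pm, Prod.mk_add_mk, Prod.mk_sub_mk, Prod.mk.injEq, true_and, and_true,
    true_or, or_true]
  omega

def HL : Fin 6 → List (ℤ × ℤ) :=
  ![[(2, 5), (3, 5), (4, 4), (4, 5), (4, 6), (5, 5)],
    [(3, 1), (4, 1), (5, 0), (5, 1), (5, 2), (6, 1)],
    [(-1, 4), (0, 3), (0, 4), (0, 5), (1, 4), (2, 4)],
    [(0, 2), (1, 1), (1, 2), (1, 3), (2, 2), (3, 2)],
    [(2, 3), (3, 3), (3, 4), (4, 2), (4, 3), (5, 3)],
    [(0, 0), (1, -1), (1, 0), (2, 0), (2, 1), (3, 0)]]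

def VL : Fin 6 → List ((ℤ × ℤ) × Z3) :=
  ![[((2, 5), (0, 0, 0)), ((2, 6), (0, 1, 0)), ((3, 5), (1, 0, 0)), ((3, 6), (1, 1, 0)), ((4, 4), (1, 0, 0)), ((4, 5), (1, 0, 1)), ((4, 6), (1, 1, 1)), ((4, 7), (1, 1, 0)), ((5, 4), (0, 0, 0)), ((5, 5), (0, 0, 1)), ((5, 6), (0, 1, 1)), ((5, 7), (0, 1, 0)), ((6, 5), (0, 0, 0)), ((6, 6), (0, 1, 0))],
    [((3, 1), (0, 0, 0)), ((3, 2), (0, 1, 0)), ((4, 1), (1, 0, 0)), ((4, 2), (1, 1, 0)), ((5, 0), (1, 0, 0)), ((5, 1), (1, 0, 1)), ((5, 2), (1, 1, 1)), ((5, 3), (1, 1, 0)), ((6, 0), (0, 0, 0)), ((6, 1), (0, 0, 1)), ((6, 2), (0, 1, 1)), ((6, 3), (0, 1, 0)), ((7, 1), (0, 0, 0)), ((7, 2), (0, 1, 0))],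
    [((-1, 4), (0, 0, 0)), ((-1, 5), (0, 1, 0)), ((0, 3), (0, 0, 0)), ((0, 4), (1, 0, 0)), ((0, 5), (1, 1, 0)), ((0, 6), (0, 1, 0)), ((1, 3), (0, 0, 1)), ((1, 4), (1, 0, 1)), ((1, 5), (1, 1, 1)), ((1, 6), (0, 1, 1)), ((2, 4), (0, 0, 1)), ((2, 5), (0, 1, 1)), ((3, 4), (0, 0, 0)), ((3, 5), (0, 1, 0))],
    [((0, 2), (0, 0, 0)), ((0, 3), (0, 1, 0)), ((1, 1), (0, 0, 0)), ((1, 2), (1, 0, 0)), ((1, 3), (1, 1, 0)), ((1, 4), (0, 1, 0)), ((2, 1), (0, 0, 1)), ((2, 2), (1, 0, 1)), ((2, 3), (1, 1, 1)), ((2, 4), (0, 1, 1)), ((3, 2), (0, 0, 1)), ((3, 3), (0, 1, 1)), ((4, 2), (0, 0, 0)), ((4, 3), (0, 1, 0))],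
    [((2, 3), (0, 0, 0)), ((2, 4), (0, 1, 0)), ((3, 3), (1, 0, 0)), ((3, 4), (1, 1, 0)), ((3, 5), (0, 1, 0)), ((4, 2), (1, 0, 0)), ((4, 3), (1, 0, 1)), ((4, 4), (1, 1, 1)), ((4, 5), (0, 1, 1)), ((5, 2), (0, 0, 0)), ((5, 3), (0, 0, 1)), ((5, 4), (0, 1, 1)), ((6, 3), (0, 0, 0)), ((6, 4), (0, 1, 0))],
    [((0, 0), (0, 0, 0)), ((0, 1), (0, 1, 0)), ((1, -1), (0, 0, 0)), ((1, 0), (1, 0, 0)), ((1, 1), (1, 1, 0)), ((2, -1), (0, 0, 1)), ((2, 0), (1, 0, 1)), ((2, 1), (1, 1, 1)), ((2, 2), (1, 1, 0)), ((3, 0), (0, 0, 1)), ((3, 1), (0, 1, 1)), ((3, 2), (0, 1, 0)), ((4, 0), (0, 0, 0)), ((4, 1), (0, 1, 0))]]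

def RL : List ((ℤ × ℤ) × ℕ) :=
  [((2, 5), 0), ((3, 5), 1), ((4, 4), 3), ((4, 5), 2), ((4, 6), 3), ((5, 5), 3),
    ((3, 1), 0), ((4, 1), 1), ((5, 0), 3), ((5, 1), 2), ((5, 2), 3), ((6, 1), 3),
    ((-1, 4), 0), ((0, 3), 2), ((0, 4), 1), ((0, 5), 2), ((1, 4), 2), ((2, 4), 3),
    ((0, 2), 0), ((1, 1), 2), ((1, 2), 1), ((1, 3), 2), ((2, 2), 2), ((3, 2), 3),
    ((2, 3), 0), ((3, 3), 1), ((3, 4), 2), ((4, 2), 3), ((4, 3), 2), ((5, 3), 3),
    ((0, 0), 0), ((1, -1), 2), ((1, 0), 1), ((2, 0), 2), ((2, 1), 3), ((3, 0), 3)]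


def H (i : Fin 6) : Finset (ℤ × ℤ) := (HL i).toFinset

def VH (i : Fin 6) (x y : ℤ) : Z3 := ((VL i).lookup (x, y)).getD (0, 0, 0)

def rkH (p : ℤ × ℤ) : ℕ := (RL.lookup p).getD 0

instance (p q : ℤ × ℤ) : Decidable (Adj p q) := by unfold Adj; infer_instance

lemma mem_H {i : Fin 6} {c : ℤ × ℤ} : c ∈ H i ↔ c ∈ HL i := List.mem_toFinset

lemma H_card (i : Fin 6) : (H i).card ≤ 6 := by
  refine (List.toFinset_card_le _).trans ?_
  revert i; decide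

lemma H_cert (i : Fin 6) : Cert (H i) (1 : ℕ) (VH i) := by
  apply Cert.of_surj
  · simp only [mem_H]
    revert i; decide +kernel
  · have k : ∀ i : Fin 6, ∀ z ∈ [((0, 1, 1) : Z3), (2, 1, 1), (1, 0, 1), (1, 2, 1), (1, 1, 0),
        (1, 1, 2)], ∃ c ∈ HL i, Mid (VH i) c = z := by decide +kernel
    rintro ⟨a, b, c⟩ hz
    simp only [mem_H]
    apply k
    simp only [InZ, en, od, List.mem_cons, Prod.mk.injEq, List.not_mem_nil, or_false] at hz ⊢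
    omega
  · simpa using H_card i

lemma H_poly (i : Fin 6) : IsPolyomino (H i) := by
  have k : ∀ i : Fin 6, ∃ r ∈ HL i, ∀ a ∈ HL i, a = r ∨ ∃ b ∈ HL i, Adj a b ∧ rkH b < rkH a := by
    decide +kernel
  obtain ⟨r, hr, h⟩ := k i
  apply poly_of_rank r (mem_H.2 hr) rkH
  simpa only [mem_H] using h

def own (x y : ℤ) : ℤ × ℤ :=
  if x % 6 = 4 ∧ y % 6 = 0 then (x / 6, y / 6 - 1)
  else if x % 6 = 5 ∧ y % 6 = 4 then (x / 6 + 1, y / 6)
  else if x % 6 = 1 ∧ y % 6 = 5 then (x / 6, y / 6 + 1)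
  else if x % 6 = 0 ∧ y % 6 = 1 then (x / 6 - 1, y / 6)
  else (x / 6, y / 6)

lemma own_H (i : Fin 6) (c : ℤ × ℤ) (hc : c ∈ H i) : own c.1 c.2 = (0, 0) := by
  have k : ∀ i : Fin 6, ∀ c ∈ HL i, own c.1 c.2 = (0, 0) := by decide +kernel
  exact k i c (mem_H.1 hc)

lemma H_uniq (i j : Fin 6) (c : ℤ × ℤ) (hi : c ∈ H i) (hj : c ∈ H j) : i = j := by
  have k : ∀ i j : Fin 6, ∀ c ∈ HL i, c ∈ HL j → i = j := by decide +kernel
  exact k i j c (mem_H.1 hi) (mem_H.1 hj)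

lemma H_cover (x y : ℤ) (h : own x y = (0, 0)) : ∃ i, (x, y) ∈ H i := by
  have hb : -1 ≤ x ∧ x ≤ 6 ∧ -1 ≤ y ∧ y ≤ 6 := by
    unfold own at h
    split_ifs at h <;> simp only [Prod.mk.injEq] at h <;> omega
  obtain ⟨a, b, c, d⟩ := hb
  simp only [mem_H]
  revert h
  interval_cases x <;> interval_cases y <;> decide +kernel

lemma own_shift (x y a b : ℤ) :
    own (x - 6 * a) (y - 6 * b) = ((own x y).1 - a, (own x y).2 - b) := by
  have e1 : (x - 6 * a) % 6 = x % 6 := by omega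
  have e2 : (y - 6 * b) % 6 = y % 6 := by omega
  unfold own
  rw [e1, e2]
  split_ifs <;> simp only [Prod.mk.injEq] <;> omega

def sh (S : Finset (ℤ × ℤ)) (a b : ℤ) : Finset (ℤ × ℤ) := S.image fun c => (c.1 + a, c.2 + b)

lemma mem_sh (S : Finset (ℤ × ℤ)) (a b x y : ℤ) : (x, y) ∈ sh S a b ↔ (x - a, y - b) ∈ S := by
  simp only [sh, Finset.mem_image, Prod.mk.injEq]
  constructor
  · rintro ⟨⟨p, q⟩, h, rfl, rfl⟩
    simpa using h
  · intro h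
    exact ⟨_, h, by simp, by simp⟩

lemma card_sh (S : Finset (ℤ × ℤ)) (a b : ℤ) : (sh S a b).card = S.card := by
  apply Finset.card_image_of_injective
  rintro ⟨x, y⟩ ⟨z, w⟩ h
  simp only [Prod.mk.injEq] at h ⊢
  omega

lemma own_sh {i : Fin 6} {q : ℤ × ℤ} {x y : ℤ} (h : (x, y) ∈ sh (H i) (6 * q.1) (6 * q.2)) :
    own x y = q := by
  have := own_H i _ ((mem_sh _ _ _ _ _).1 h)
  simp only [own_shift, Prod.mk.injEq] at this
  exact Prod.ext (by omega) (by omega)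

lemma sh_own (x y : ℤ) : ∃ i, (x, y) ∈ sh (H i) (6 * (own x y).1) (6 * (own x y).2) := by
  obtain ⟨i, hi⟩ := H_cover (x - 6 * (own x y).1) (y - 6 * (own x y).2) (by simp [own_shift])
  exact ⟨i, (mem_sh _ _ _ _ _).2 hi⟩

def wob (Q : Finset (ℤ × ℤ)) : Finset (ℤ × ℤ) :=
  Q.biUnion fun q => Finset.univ.biUnion fun i => sh (H i) (6 * q.1) (6 * q.2)

lemma mem_wob (Q : Finset (ℤ × ℤ)) (x y : ℤ) : (x, y) ∈ wob Q ↔ own x y ∈ Q := by
  simp only [wob, Finset.mem_biUnion, Finset.mem_univ, true_and]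
  constructor
  · rintro ⟨q, hq, i, hi⟩
    rw [own_sh hi]; exact hq
  · intro h
    exact ⟨_, h, sh_own x y⟩

lemma card_wob (Q : Finset (ℤ × ℤ)) : (wob Q).card ≤ Q.card * 36 := by
  apply Finset.card_biUnion_le_card_mul
  intro q _
  have := Finset.card_biUnion_le_card_mul (Finset.univ : Finset (Fin 6))
    (fun i => sh (H i) (6 * q.1) (6 * q.2)) 6 (fun i _ => by rw [card_sh]; exact H_card i)
  simpa using this

noncomputable def Net (t : ℤ) : Finset (ℤ × ℤ) :=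
  (Finset.Ico 0 (4 * t) ×ˢ Finset.Ico 0 t) ∪ ((Finset.Ico 0 t ×ˢ Finset.Ico t (2 * t)) ∪
    (Finset.Ico 0 t ×ˢ Finset.Ico (-t) 0))

def InN (t a b : ℤ) : Prop :=
  (0 ≤ a ∧ a < 4 * t ∧ 0 ≤ b ∧ b < t) ∨ (0 ≤ a ∧ a < t ∧ -t ≤ b ∧ b < 2 * t)

lemma mem_Net (t a b : ℤ) : (a, b) ∈ Net t ↔ InN t a b := by
  simp only [Net, InN, Finset.mem_union, Finset.mem_product, Finset.mem_Ico]
  omega

lemma card_Net (n : ℕ) : (Net n).card = 6 * n ^ 2 := by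
  unfold Net
  rw [Finset.card_union_of_disjoint, Finset.card_union_of_disjoint]
  · simp only [Finset.card_product, Int.card_Ico]
    have e1 : (4 * (n : ℤ) - 0).toNat = 4 * n := by omega
    have e2 : ((n : ℤ) - 0).toNat = n := by omega
    have e3 : (2 * (n : ℤ) - n).toNat = n := by omega
    have e4 : (0 - -(n : ℤ)).toNat = n := by omega
    rw [e1, e2, e3, e4]; ring
  · rw [Finset.disjoint_left]
    rintro ⟨a, b⟩
    simp only [Finset.mem_product, Finset.mem_Ico]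
    omega
  · rw [Finset.disjoint_left]
    rintro ⟨a, b⟩
    simp only [Finset.mem_union, Finset.mem_product, Finset.mem_Ico]
    omega

def InS (t x y : ℤ) : Prop :=
  (x % 6 = 4 ∧ y % 6 = 0 ∧ InN t (x / 6) (y / 6 - 1)) ∨
  (x % 6 = 5 ∧ y % 6 = 4 ∧ InN t (x / 6 + 1) (y / 6)) ∨
  (x % 6 = 1 ∧ y % 6 = 5 ∧ InN t (x / 6) (y / 6 + 1)) ∨
  (x % 6 = 0 ∧ y % 6 = 1 ∧ InN t (x / 6 - 1) (y / 6)) ∨
  (¬ (x % 6 = 4 ∧ y % 6 = 0) ∧ ¬ (x % 6 = 5 ∧ y % 6 = 4) ∧ ¬ (x % 6 = 1 ∧ y % 6 = 5) ∧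
    ¬ (x % 6 = 0 ∧ y % 6 = 1) ∧ InN t (x / 6) (y / 6))

lemma mem_wN (t x y : ℤ) : (x, y) ∈ wob (Net t) ↔ InS t x y := by
  rw [mem_wob]
  unfold own InS
  split_ifs with h1 h2 h3 h4 <;> rw [mem_Net]
  · simp [h1.1, h1.2]
  · simp [h2.1, h2.2]
  · simp [h3.1, h3.2]
  · simp [h4.1, h4.2]
  · constructor
    · intro h
      exact Or.inr (Or.inr (Or.inr (Or.inr ⟨h1, h2, h3, h4, h⟩)))
    · rintro (h | h | h | h | h)
      · exact absurd ⟨h.1, h.2.1⟩ h1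
      · exact absurd ⟨h.1, h.2.1⟩ h2
      · exact absurd ⟨h.1, h.2.1⟩ h3
      · exact absurd ⟨h.1, h.2.1⟩ h4
      · exact h.2.2.2.2



lemma InS.box {t x y : ℤ} (h0 : InN t (x / 6) (y / 6))
    (h1 : x % 6 = 4 → y % 6 = 0 → InN t (x / 6) (y / 6 - 1))
    (h2 : x % 6 = 5 → y % 6 = 4 → InN t (x / 6 + 1) (y / 6))
    (h3 : x % 6 = 1 → y % 6 = 5 → InN t (x / 6) (y / 6 + 1))
    (h4 : x % 6 = 0 → y % 6 = 1 → InN t (x / 6 - 1) (y / 6)) : InS t x y := by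
  by_cases a1 : x % 6 = 4 ∧ y % 6 = 0
  · exact Or.inl ⟨a1.1, a1.2, h1 a1.1 a1.2⟩
  by_cases a2 : x % 6 = 5 ∧ y % 6 = 4
  · exact Or.inr (Or.inl ⟨a2.1, a2.2, h2 a2.1 a2.2⟩)
  by_cases a3 : x % 6 = 1 ∧ y % 6 = 5
  · exact Or.inr (Or.inr (Or.inl ⟨a3.1, a3.2, h3 a3.1 a3.2⟩))
  by_cases a4 : x % 6 = 0 ∧ y % 6 = 1
  · exact Or.inr (Or.inr (Or.inr (Or.inl ⟨a4.1, a4.2, h4 a4.1 a4.2⟩)))
  exact Or.inr (Or.inr (Or.inr (Or.inr ⟨a1, a2, a3, a4, h0⟩)))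

lemma InS.weak {t x y : ℤ} (h : InS t x y) :
    (x % 6 = 4 ∧ y % 6 = 0 ∧ InN t (x / 6) (y / 6 - 1)) ∨
    (x % 6 = 5 ∧ y % 6 = 4 ∧ InN t (x / 6 + 1) (y / 6)) ∨
    (x % 6 = 1 ∧ y % 6 = 5 ∧ InN t (x / 6) (y / 6 + 1)) ∨
    (x % 6 = 0 ∧ y % 6 = 1 ∧ InN t (x / 6 - 1) (y / 6)) ∨ InN t (x / 6) (y / 6) := by
  rcases h with h | h | h | h | h
  · exact Or.inl h
  · exact Or.inr (Or.inl h)
  · exact Or.inr (Or.inr (Or.inl h))
  · exact Or.inr (Or.inr (Or.inr (Or.inl h)))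
  · exact Or.inr (Or.inr (Or.inr (Or.inr h.2.2.2.2)))

lemma gF0 {L x y : ℤ} (h2 : 2 ≤ L) (h : 0 ≤ x ∧ x < L ∧ 0 ≤ y ∧ y < L) :
    Sq (VV L) (x, y) ∧ InZ L (Mid (VV L) (x, y)) := by
  refine ⟨(cF0 h2 h).1, ?_⟩
  rw [(cF0 h2 h).2]
  simp only [InZ, en, od, true_and, and_true, true_or, or_true]
  omega

lemma gF1 {L x y : ℤ} (h2 : 2 ≤ L) (h : L ≤ x ∧ x < 2 * L ∧ 0 ≤ y ∧ y < L) :
    Sq (VV L) (x, y) ∧ InZ L (Mid (VV L) (x, y)) := by
  refine ⟨(cF1 h2 h).1, ?_⟩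
  rw [(cF1 h2 h).2]
  simp only [InZ, en, od, true_and, and_true, true_or, or_true]
  omega

lemma gF2 {L x y : ℤ} (h2 : 2 ≤ L) (h : 2 * L ≤ x ∧ x < 3 * L ∧ 0 ≤ y ∧ y < L) :
    Sq (VV L) (x, y) ∧ InZ L (Mid (VV L) (x, y)) := by
  refine ⟨(cF2 h2 h).1, ?_⟩
  rw [(cF2 h2 h).2]
  simp only [InZ, en, od, true_and, and_true, true_or, or_true]
  omega

lemma gF3 {L x y : ℤ} (h2 : 2 ≤ L) (h : 3 * L ≤ x ∧ x < 4 * L ∧ 0 ≤ y ∧ y < L) :
    Sq (VV L) (x, y) ∧ InZ L (Mid (VV L) (x, y)) := by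
  refine ⟨(cF3 h2 h).1, ?_⟩
  rw [(cF3 h2 h).2]
  simp only [InZ, en, od, true_and, and_true, true_or, or_true]
  omega

lemma gT {L x y : ℤ} (h2 : 2 ≤ L) (h : 0 ≤ x ∧ x < L ∧ L ≤ y ∧ y < 2 * L) :
    Sq (VV L) (x, y) ∧ InZ L (Mid (VV L) (x, y)) := by
  refine ⟨(cT h2 h).1, ?_⟩
  rw [(cT h2 h).2]
  simp only [InZ, en, od, true_and, and_true, true_or, or_true]
  omega

lemma gB {L x y : ℤ} (h2 : 2 ≤ L) (h : 0 ≤ x ∧ x < L ∧ -L ≤ y ∧ y < 0) :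
    Sq (VV L) (x, y) ∧ InZ L (Mid (VV L) (x, y)) := by
  refine ⟨(cB h2 h).1, ?_⟩
  rw [(cB h2 h).2]
  simp only [InZ, en, od, true_and, and_true, true_or, or_true]
  omega

lemma gSL {L x y : ℤ} (h2 : 2 ≤ L) (h : x = -1 ∧ 0 ≤ y ∧ y < L) :
    Sq (VV L) (x, y) ∧ InZ L (Mid (VV L) (x, y)) := by
  refine ⟨(cSL h2 h).1, ?_⟩
  rw [(cSL h2 h).2]
  simp only [InZ, en, od, true_and, and_true, true_or, or_true]
  omega

lemma gSR {L x y : ℤ} (h2 : 2 ≤ L) (h : x = 4 * L ∧ 0 ≤ y ∧ y < L) :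
    Sq (VV L) (x, y) ∧ InZ L (Mid (VV L) (x, y)) := by
  refine ⟨(cSR h2 h).1, ?_⟩
  rw [(cSR h2 h).2]
  simp only [InZ, en, od, true_and, and_true, true_or, or_true]
  omega

lemma gTL {L x y : ℤ} (h2 : 2 ≤ L) (h : x = -1 ∧ L < y ∧ y < 2 * L) :
    Sq (VV L) (x, y) ∧ InZ L (Mid (VV L) (x, y)) := by
  refine ⟨(cTL h2 h).1, ?_⟩
  rw [(cTL h2 h).2]
  simp only [InZ, en, od, true_and, and_true, true_or, or_true]
  omega

lemma gTT {L x y : ℤ} (h2 : 2 ≤ L) (h : 0 ≤ x ∧ x < L ∧ y = 2 * L) :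
    Sq (VV L) (x, y) ∧ InZ L (Mid (VV L) (x, y)) := by
  refine ⟨(cTT h2 h).1, ?_⟩
  rw [(cTT h2 h).2]
  simp only [InZ, en, od, true_and, and_true, true_or, or_true]
  omega

lemma gTR {L x y : ℤ} (h2 : 2 ≤ L) (h : x = L ∧ L < y ∧ y < 2 * L) :
    Sq (VV L) (x, y) ∧ InZ L (Mid (VV L) (x, y)) := by
  refine ⟨(cTR h2 h).1, ?_⟩
  rw [(cTR h2 h).2]
  simp only [InZ, en, od, true_and, and_true, true_or, or_true]
  omega

lemma gU1 {L x y : ℤ} (h2 : 2 ≤ L) (h : L + 2 ≤ x ∧ x < 2 * L ∧ y = L) :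
    Sq (VV L) (x, y) ∧ InZ L (Mid (VV L) (x, y)) := by
  refine ⟨(cU1 h2 h).1, ?_⟩
  rw [(cU1 h2 h).2]
  simp only [InZ, en, od, true_and, and_true, true_or, or_true]
  omega

lemma gU2 {L x y : ℤ} (h2 : 2 ≤ L) (h : 2 * L < x ∧ x < 3 * L ∧ y = L) :
    Sq (VV L) (x, y) ∧ InZ L (Mid (VV L) (x, y)) := by
  refine ⟨(cU2 h2 h).1, ?_⟩
  rw [(cU2 h2 h).2]
  simp only [InZ, en, od, true_and, and_true, true_or, or_true]
  omega

lemma gU3 {L x y : ℤ} (h2 : 2 ≤ L) (h : 3 * L < x ∧ x < 4 * L ∧ y = L) :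
    Sq (VV L) (x, y) ∧ InZ L (Mid (VV L) (x, y)) := by
  refine ⟨(cU3 h2 h).1, ?_⟩
  rw [(cU3 h2 h).2]
  simp only [InZ, en, od, true_and, and_true, true_or, or_true]
  omega

lemma gBL {L x y : ℤ} (h2 : 2 ≤ L) (h : x = -1 ∧ -L ≤ y ∧ y < -1) :
    Sq (VV L) (x, y) ∧ InZ L (Mid (VV L) (x, y)) := by
  refine ⟨(cBL h2 h).1, ?_⟩
  rw [(cBL h2 h).2]
  simp only [InZ, en, od, true_and, and_true, true_or, or_true]
  omega

lemma gBB {L x y : ℤ} (h2 : 2 ≤ L) (h : 0 ≤ x ∧ x < L ∧ y = -L - 1) :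
    Sq (VV L) (x, y) ∧ InZ L (Mid (VV L) (x, y)) := by
  refine ⟨(cBB h2 h).1, ?_⟩
  rw [(cBB h2 h).2]
  simp only [InZ, en, od, true_and, and_true, true_or, or_true]
  omega

lemma gBR {L x y : ℤ} (h2 : 2 ≤ L) (h : x = L ∧ -L ≤ y ∧ y < -2) :
    Sq (VV L) (x, y) ∧ InZ L (Mid (VV L) (x, y)) := by
  refine ⟨(cBR h2 h).1, ?_⟩
  rw [(cBR h2 h).2]
  simp only [InZ, en, od, true_and, and_true, true_or, or_true]
  omega

lemma gD1 {L x y : ℤ} (h2 : 2 ≤ L) (h : L < x ∧ x < 2 * L ∧ y = -1) :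
    Sq (VV L) (x, y) ∧ InZ L (Mid (VV L) (x, y)) := by
  refine ⟨(cD1 h2 h).1, ?_⟩
  rw [(cD1 h2 h).2]
  simp only [InZ, en, od, true_and, and_true, true_or, or_true]
  omega

lemma gD2 {L x y : ℤ} (h2 : 2 ≤ L) (h : 2 * L < x ∧ x < 3 * L ∧ y = -1) :
    Sq (VV L) (x, y) ∧ InZ L (Mid (VV L) (x, y)) := by
  refine ⟨(cD2 h2 h).1, ?_⟩
  rw [(cD2 h2 h).2]
  simp only [InZ, en, od, true_and, and_true, true_or, or_true]
  omega

lemma gD3 {L x y : ℤ} (h2 : 2 ≤ L) (h : 3 * L < x ∧ x < 4 * L ∧ y = -1) :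
    Sq (VV L) (x, y) ∧ InZ L (Mid (VV L) (x, y)) := by
  refine ⟨(cD3 h2 h).1, ?_⟩
  rw [(cD3 h2 h).2]
  simp only [InZ, en, od, true_and, and_true, true_or, or_true]
  omega

lemma good {t L x y : ℤ} (ht : 1 ≤ t) (hL : L = 6 * t) (h : InS t x y) :
    Sq (VV L) (x, y) ∧ InZ L (Mid (VV L) (x, y)) := by
  have h2 : 2 ≤ L := by omega
  have h := h.weak
  unfold InN at h
  by_cases y1 : y < -L
  · exact gBB h2 (by omega)
  by_cases y2 : y < 0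
  · by_cases x1 : x < 0
    · exact gBL h2 (by omega)
    by_cases x2 : x < L
    · exact gB h2 (by omega)
    by_cases x3 : x = L
    · exact gBR h2 (by omega)
    by_cases x4 : x < 2 * L
    · exact gD1 h2 (by omega)
    by_cases x5 : x < 3 * L
    · exact gD2 h2 (by omega)
    · exact gD3 h2 (by omega)
  by_cases y3 : y < L
  · by_cases x1 : x < 0
    · exact gSL h2 (by omega)
    by_cases x2 : x < L
    · exact gF0 h2 (by omega)
    by_cases x4 : x < 2 * L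
    · exact gF1 h2 (by omega)
    by_cases x5 : x < 3 * L
    · exact gF2 h2 (by omega)
    by_cases x6 : x < 4 * L
    · exact gF3 h2 (by omega)
    · exact gSR h2 (by omega)
  by_cases y4 : y < 2 * L
  · by_cases x1 : x < 0
    · exact gTL h2 (by omega)
    by_cases x2 : x < L
    · exact gT h2 (by omega)
    by_cases x3 : x = L
    · exact gTR h2 (by omega)
    by_cases x4 : x < 2 * L
    · exact gU1 h2 (by omega)
    by_cases x5 : x < 3 * L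
    · exact gU2 h2 (by omega)
    · exact gU3 h2 (by omega)
  · exact gTT h2 (by omega)

lemma sF0 {t L i j : ℤ} (ht : 1 ≤ t) (hL : L = 6 * t) (hi : 0 ≤ i ∧ i < L)
    (hj : 0 ≤ j ∧ j < L) :
    ∃ x y, InS t x y ∧ Mid (VV L) (x, y) = (2 * i + 1, 0, 2 * j + 1) := by
  have h2 : 2 ≤ L := by omega
  by_cases a0 : i = 0 ∧ j % 6 = 1
  · refine ⟨4 * L, j,
      Or.inr (Or.inr (Or.inr (Or.inl ⟨by omega, by omega, by unfold InN; omega⟩))), ?_⟩
    rw [(cSR h2 (by omega)).2]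
    all_goals simp only [Prod.mk.injEq, true_and, and_true]
    all_goals omega
  refine ⟨i, j, InS.box ?_ ?_ ?_ ?_ ?_, ?_⟩
  · unfold InN; omega
  · intro b1 b2; unfold InN; omega
  · intro b1 b2; unfold InN; omega
  · intro b1 b2; unfold InN; omega
  · intro b1 b2; unfold InN; omega
  rw [(cF0 h2 (by omega)).2]

lemma sF1 {t L i j : ℤ} (ht : 1 ≤ t) (hL : L = 6 * t) (hi : 0 ≤ i ∧ i < L)
    (hj : 0 ≤ j ∧ j < L) :
    ∃ x y, InS t x y ∧ Mid (VV L) (x, y) = (2 * L, 2 * i + 1, 2 * j + 1) := by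
  have h2 : 2 ≤ L := by omega
  by_cases a0 : i % 6 = 1 ∧ j = L - 1
  · refine ⟨L, L + i,
      Or.inr (Or.inr (Or.inr (Or.inl ⟨by omega, by omega, by unfold InN; omega⟩))), ?_⟩
    rw [(cTR h2 (by omega)).2]
    all_goals simp only [Prod.mk.injEq, true_and, and_true]
    all_goals omega
  by_cases a1 : i % 6 = 4 ∧ j = 0
  · refine ⟨L, -i - 1,
      Or.inr (Or.inr (Or.inr (Or.inl ⟨by omega, by omega, by unfold InN; omega⟩))), ?_⟩
    rw [(cBR h2 (by omega)).2]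
    all_goals simp only [Prod.mk.injEq, true_and, and_true]
    all_goals omega
  refine ⟨L + i, j, InS.box ?_ ?_ ?_ ?_ ?_, ?_⟩
  · unfold InN; omega
  · intro b1 b2; unfold InN; omega
  · intro b1 b2; unfold InN; omega
  · intro b1 b2; unfold InN; omega
  · intro b1 b2; unfold InN; omega
  rw [(cF1 h2 (by omega)).2]
  all_goals simp only [Prod.mk.injEq, true_and, and_true]
  all_goals omega

lemma sF2 {t L i j : ℤ} (ht : 1 ≤ t) (hL : L = 6 * t) (hi : 0 ≤ i ∧ i < L)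
    (hj : 0 ≤ j ∧ j < L) :
    ∃ x y, InS t x y ∧ Mid (VV L) (x, y) = (2 * i + 1, 2 * L, 2 * j + 1) := by
  have h2 : 2 ≤ L := by omega
  by_cases a0 : i % 6 = 4 ∧ j = L - 1
  · refine ⟨i, 2 * L,
      Or.inl ⟨by omega, by omega, by unfold InN; omega⟩, ?_⟩
    rw [(cTT h2 (by omega)).2]
    all_goals simp only [Prod.mk.injEq, true_and, and_true]
    all_goals omega
  by_cases a1 : i % 6 = 1 ∧ j = 0
  · refine ⟨i, -L - 1,
      Or.inr (Or.inr (Or.inl ⟨by omega, by omega, by unfold InN; omega⟩)), ?_⟩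
    rw [(cBB h2 (by omega)).2]
    all_goals simp only [Prod.mk.injEq, true_and, and_true]
    all_goals omega
  refine ⟨3 * L - i - 1, j, InS.box ?_ ?_ ?_ ?_ ?_, ?_⟩
  · unfold InN; omega
  · intro b1 b2; unfold InN; omega
  · intro b1 b2; unfold InN; omega
  · intro b1 b2; unfold InN; omega
  · intro b1 b2; unfold InN; omega
  rw [(cF2 h2 (by omega)).2]
  all_goals simp only [Prod.mk.injEq, true_and, and_true]
  all_goals omega

lemma sF3 {t L i j : ℤ} (ht : 1 ≤ t) (hL : L = 6 * t) (hi : 0 ≤ i ∧ i < L)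
    (hj : 0 ≤ j ∧ j < L) :
    ∃ x y, InS t x y ∧ Mid (VV L) (x, y) = (0, 2 * i + 1, 2 * j + 1) := by
  have h2 : 2 ≤ L := by omega
  by_cases a0 : i % 6 = 4 ∧ j = L - 1
  · refine ⟨-1, L + i,
      Or.inr (Or.inl ⟨by omega, by omega, by unfold InN; omega⟩), ?_⟩
    rw [(cTL h2 (by omega)).2]
    all_goals simp only [Prod.mk.injEq, true_and, and_true]
    all_goals omega
  by_cases a1 : i % 6 = 1 ∧ j = 0
  · refine ⟨-1, -i - 1,
      Or.inr (Or.inl ⟨by omega, by omega, by unfold InN; omega⟩), ?_⟩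
    rw [(cBL h2 (by omega)).2]
    all_goals simp only [Prod.mk.injEq, true_and, and_true]
    all_goals omega
  by_cases a2 : i = 0 ∧ j % 6 = 4
  · refine ⟨-1, j,
      Or.inr (Or.inl ⟨by omega, by omega, by unfold InN; omega⟩), ?_⟩
    rw [(cSL h2 (by omega)).2]
    all_goals simp only [Prod.mk.injEq, true_and, and_true]
    all_goals omega
  refine ⟨4 * L - i - 1, j, InS.box ?_ ?_ ?_ ?_ ?_, ?_⟩
  · unfold InN; omega
  · intro b1 b2; unfold InN; omega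
  · intro b1 b2; unfold InN; omega
  · intro b1 b2; unfold InN; omega
  · intro b1 b2; unfold InN; omega
  rw [(cF3 h2 (by omega)).2]
  all_goals simp only [Prod.mk.injEq, true_and, and_true]
  all_goals omega

lemma sT {t L i j : ℤ} (ht : 1 ≤ t) (hL : L = 6 * t) (hi : 0 ≤ i ∧ i < L)
    (hj : 0 ≤ j ∧ j < L) :
    ∃ x y, InS t x y ∧ Mid (VV L) (x, y) = (2 * i + 1, 2 * j + 1, 2 * L) := by
  have h2 : 2 ≤ L := by omega
  by_cases a0 : i = 0 ∧ j % 6 = 1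
  · refine ⟨4 * L - j - 1, L,
      Or.inl ⟨by omega, by omega, by unfold InN; omega⟩, ?_⟩
    rw [(cU3 h2 (by omega)).2]
    all_goals simp only [Prod.mk.injEq, true_and, and_true]
    all_goals omega
  by_cases a1 : i = L - 1 ∧ j % 6 = 4
  · refine ⟨L + j, L,
      Or.inl ⟨by omega, by omega, by unfold InN; omega⟩, ?_⟩
    rw [(cU1 h2 (by omega)).2]
    all_goals simp only [Prod.mk.injEq, true_and, and_true]
    all_goals omega
  by_cases a2 : i % 6 = 1 ∧ j = L - 1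
  · refine ⟨3 * L - i - 1, L,
      Or.inl ⟨by omega, by omega, by unfold InN; omega⟩, ?_⟩
    rw [(cU2 h2 (by omega)).2]
    all_goals simp only [Prod.mk.injEq, true_and, and_true]
    all_goals omega
  refine ⟨i, L + j, InS.box ?_ ?_ ?_ ?_ ?_, ?_⟩
  · unfold InN; omega
  · intro b1 b2; unfold InN; omega
  · intro b1 b2; unfold InN; omega
  · intro b1 b2; unfold InN; omega
  · intro b1 b2; unfold InN; omega
  rw [(cT h2 (by omega)).2]
  all_goals simp only [Prod.mk.injEq, true_and, and_true]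
  all_goals omega

lemma sB {t L i j : ℤ} (ht : 1 ≤ t) (hL : L = 6 * t) (hi : 0 ≤ i ∧ i < L)
    (hj : 0 ≤ j ∧ j < L) :
    ∃ x y, InS t x y ∧ Mid (VV L) (x, y) = (2 * i + 1, 2 * j + 1, 0) := by
  have h2 : 2 ≤ L := by omega
  by_cases a0 : i = 0 ∧ j % 6 = 4
  · refine ⟨4 * L - j - 1, -1,
      Or.inr (Or.inr (Or.inl ⟨by omega, by omega, by unfold InN; omega⟩)), ?_⟩
    rw [(cD3 h2 (by omega)).2]
    all_goals simp only [Prod.mk.injEq, true_and, and_true]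
    all_goals omega
  by_cases a1 : i = L - 1 ∧ j % 6 = 1
  · refine ⟨L + j, -1,
      Or.inr (Or.inr (Or.inl ⟨by omega, by omega, by unfold InN; omega⟩)), ?_⟩
    rw [(cD1 h2 (by omega)).2]
    all_goals simp only [Prod.mk.injEq, true_and, and_true]
    all_goals omega
  by_cases a2 : i % 6 = 4 ∧ j = L - 1
  · refine ⟨3 * L - i - 1, -1,
      Or.inr (Or.inr (Or.inl ⟨by omega, by omega, by unfold InN; omega⟩)), ?_⟩
    rw [(cD2 h2 (by omega)).2]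
    all_goals simp only [Prod.mk.injEq, true_and, and_true]
    all_goals omega
  refine ⟨i, -j - 1, InS.box ?_ ?_ ?_ ?_ ?_, ?_⟩
  · unfold InN; omega
  · intro b1 b2; unfold InN; omega
  · intro b1 b2; unfold InN; omega
  · intro b1 b2; unfold InN; omega
  · intro b1 b2; unfold InN; omega
  rw [(cB h2 (by omega)).2]
  all_goals simp only [Prod.mk.injEq, true_and, and_true]
  all_goals omega

lemma od_ex {L a : ℤ} (h : od L a) : ∃ i, (0 ≤ i ∧ i < L) ∧ a = 2 * i + 1 :=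
  ⟨a / 2, by unfold od at h; omega, by unfold od at h; omega⟩

lemma wN_cert (n : ℕ) (hn : 1 ≤ n) : Cert (wob (Net n)) (6 * n : ℕ) (VV (6 * n : ℕ)) := by
  have ht : (1 : ℤ) ≤ n := by omega
  have hL : ((6 * n : ℕ) : ℤ) = 6 * (n : ℤ) := by omega
  apply Cert.of_surj
  · rintro ⟨x, y⟩ h
    exact good ht hL ((mem_wN _ _ _).1 h)
  · rintro ⟨a, b, c⟩ hz
    suffices h : ∃ x y, InS n x y ∧ Mid (VV (6 * n : ℕ)) (x, y) = (a, b, c) by
      obtain ⟨x, y, h1, h2⟩ := h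
      exact ⟨(x, y), (mem_wN _ _ _).2 h1, h2⟩
    rcases hz with ⟨h1, h2, h3⟩ | ⟨h1, h2, h3⟩ | ⟨h1, h2, h3⟩
    · obtain ⟨i, hi, rfl⟩ := od_ex h2
      obtain ⟨j, hj, rfl⟩ := od_ex h3
      rcases h1 with rfl | rfl
      · exact sF3 ht hL hi hj
      · exact sF1 ht hL hi hj
    · obtain ⟨i, hi, rfl⟩ := od_ex h1
      obtain ⟨j, hj, rfl⟩ := od_ex h3
      rcases h2 with rfl | rfl
      · exact sF0 ht hL hi hj
      · exact sF2 ht hL hi hj
    · obtain ⟨i, hi, rfl⟩ := od_ex h1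
      obtain ⟨j, hj, rfl⟩ := od_ex h2
      rcases h3 with rfl | rfl
      · exact sB ht hL hi hj
      · exact sT ht hL hi hj
  · have := card_wob (Net n)
    rw [card_Net] at this
    nlinarith


lemma conn_symm {S : Finset (ℤ × ℤ)} {a b : ℤ × ℤ}
    (h : Relation.ReflTransGen (fun p q => p ∈ S ∧ q ∈ S ∧ Adj p q) a b) :
    Relation.ReflTransGen (fun p q => p ∈ S ∧ q ∈ S ∧ Adj p q) b a := by
  induction h with
  | refl => exact .refl
  | tail _ i ih =>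
    obtain ⟨i1, i2, i3⟩ := i
    refine .head ⟨i2, i1, ?_⟩ ih
    unfold Adj at i3 ⊢
    omega

lemma tile0_poly : IsPolyomino (wob {(0, 0)}) := by
  apply poly_of_rank (2, 2) (by rw [mem_wob]; decide)
    (fun p => (p.1 - 2).natAbs + (p.2 - 2).natAbs)
  rintro ⟨x, y⟩ h
  rw [mem_wob, Finset.mem_singleton] at h
  have hb : -1 ≤ x ∧ x ≤ 6 ∧ -1 ≤ y ∧ y ≤ 6 := by
    unfold own at h
    split_ifs at h <;> simp only [Prod.mk.injEq] at h <;> omega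
  obtain ⟨a, b, c, d⟩ := hb
  have k : (x, y) = (2, 2) ∨ ∃ p ∈ [(x + 1, y), (x - 1, y), (x, y + 1), (x, y - 1)],
      own p.1 p.2 = (0, 0) ∧ Adj (x, y) p ∧
        (p.1 - 2).natAbs + (p.2 - 2).natAbs < (x - 2).natAbs + (y - 2).natAbs := by
    revert h
    interval_cases x <;> interval_cases y <;> decide +kernel
  rcases k with k | ⟨⟨p, q⟩, -, k1, k2, k3⟩
  · exact Or.inl k
  · exact Or.inr ⟨(p, q), by rw [mem_wob, Finset.mem_singleton]; exact k1, k2, k3⟩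

lemma tile_conn {Q : Finset (ℤ × ℤ)} {q : ℤ × ℤ} (hq : q ∈ Q) {x y z w : ℤ} (h1 : own x y = q)
    (h2 : own z w = q) :
    Relation.ReflTransGen (fun p r => p ∈ wob Q ∧ r ∈ wob Q ∧ Adj p r) (x, y) (z, w) := by
  have hp : IsPolyomino (wob {q}) := by
    apply tile0_poly.shift (6 * q.1) (6 * q.2)
    intro x y
    rw [mem_wob, mem_wob, own_shift, Finset.mem_singleton, Finset.mem_singleton, Prod.ext_iff,
      Prod.ext_iff]
    simp only
    omega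
  have := hp.2 (x, y) (by rw [mem_wob, h1]; simp) (z, w) (by rw [mem_wob, h2]; simp)
  refine Relation.ReflTransGen.mono ?_ _ _ this
  rintro ⟨a, b⟩ ⟨c, d⟩ ⟨i1, i2, i3⟩
  rw [mem_wob, Finset.mem_singleton] at i1 i2
  exact ⟨by rw [mem_wob, i1]; exact hq, by rw [mem_wob, i2]; exact hq, i3⟩

lemma own_loc (a b i j : ℤ) (h : own i j = (0, 0)) : own (6 * a + i) (6 * b + j) = (a, b) := by
  have := own_shift (6 * a + i) (6 * b + j) a b
  rw [show 6 * a + i - 6 * a = i by ring, show 6 * b + j - 6 * b = j by ring, h] at this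
  simp only [Prod.mk.injEq] at this
  exact Prod.ext (by omega) (by omega)

lemma ctr_h {Q : Finset (ℤ × ℤ)} {a b : ℤ} (h : (a, b) ∈ Q) (h' : (a + 1, b) ∈ Q) :
    Relation.ReflTransGen (fun p r => p ∈ wob Q ∧ r ∈ wob Q ∧ Adj p r) (6 * a + 2, 6 * b + 2)
      (6 * (a + 1) + 2, 6 * b + 2) := by
  have e1 := own_loc a b 5 2 (by decide)
  have e2 := own_loc (a + 1) b 0 2 (by decide)
  refine (tile_conn h (own_loc a b 2 2 (by decide)) e1).trans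
    (.head ⟨by rw [mem_wob, e1]; exact h, by rw [mem_wob, e2]; exact h', ?_⟩
      (tile_conn h' e2 (own_loc (a + 1) b 2 2 (by decide))))
  simp only [Adj, true_and, and_true, true_or, or_true] <;> omega

lemma ctr_v {Q : Finset (ℤ × ℤ)} {a b : ℤ} (h : (a, b) ∈ Q) (h' : (a, b + 1) ∈ Q) :
    Relation.ReflTransGen (fun p r => p ∈ wob Q ∧ r ∈ wob Q ∧ Adj p r) (6 * a + 2, 6 * b + 2)
      (6 * a + 2, 6 * (b + 1) + 2) := by
  have e1 := own_loc a b 2 5 (by decide)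
  have e2 := own_loc a (b + 1) 2 0 (by decide)
  refine (tile_conn h (own_loc a b 2 2 (by decide)) e1).trans
    (.head ⟨by rw [mem_wob, e1]; exact h, by rw [mem_wob, e2]; exact h', ?_⟩
      (tile_conn h' e2 (own_loc a (b + 1) 2 2 (by decide))))
  simp only [Adj, true_and, and_true, true_or, or_true] <;> omega

lemma wob_poly {Q : Finset (ℤ × ℤ)} (h : IsPolyomino Q) : IsPolyomino (wob Q) := by
  obtain ⟨⟨⟨a, b⟩, hab⟩, h2⟩ := h
  refine ⟨⟨(6 * a + 2, 6 * b + 2), by rw [mem_wob, own_loc a b 2 2 (by decide)]; exact hab⟩, ?_⟩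
  have k : ∀ c d : ℤ × ℤ, Relation.ReflTransGen (fun p q => p ∈ Q ∧ q ∈ Q ∧ Adj p q) c d →
      Relation.ReflTransGen (fun p r => p ∈ wob Q ∧ r ∈ wob Q ∧ Adj p r)
        (6 * c.1 + 2, 6 * c.2 + 2) (6 * d.1 + 2, 6 * d.2 + 2) := by
    intro c d hcd
    induction hcd with
    | refl => exact .refl
    | @tail u v _ i ih =>
      obtain ⟨i1, i2, i3⟩ := i
      obtain ⟨u1, u2⟩ := u
      obtain ⟨v1, v2⟩ := v
      refine ih.trans ?_
      rcases i3 with ⟨e, f | f⟩ | ⟨e, f | f⟩ <;> simp only at e f <;> subst e f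
      · exact ctr_v i1 i2
      · exact conn_symm (ctr_v i2 i1)
      · exact ctr_h i1 i2
      · exact conn_symm (ctr_h i2 i1)
  rintro ⟨x, y⟩ hx ⟨z, w⟩ hz
  rw [mem_wob] at hx hz
  exact ((tile_conn hx rfl (own_loc _ _ 2 2 (by decide))).trans (k _ _ (h2 _ hx _ hz))).trans
    (tile_conn hz (own_loc _ _ 2 2 (by decide)) rfl)

lemma Net_poly (t : ℤ) (ht : 1 ≤ t) : IsPolyomino (Net t) := by
  apply poly_of_rank (0, 0) (by rw [mem_Net]; unfold InN; omega)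
    (fun p => p.1.natAbs + p.2.natAbs)
  rintro ⟨x, y⟩ h
  rw [mem_Net] at h
  unfold InN at h
  by_cases h1 : 0 < x
  · exact Or.inr ⟨(x - 1, y), by rw [mem_Net]; unfold InN; omega, by simp only [Adj, true_and, and_true, true_or, or_true] <;> omega,
      by simp only; omega⟩
  by_cases h2 : 0 < y
  · exact Or.inr ⟨(x, y - 1), by rw [mem_Net]; unfold InN; omega, by simp only [Adj, true_and, and_true, true_or, or_true] <;> omega,
      by simp only; omega⟩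
  by_cases h3 : y < 0
  · exact Or.inr ⟨(x, y + 1), by rw [mem_Net]; unfold InN; omega, by simp only [Adj, true_and, and_true, true_or, or_true] <;> omega,
      by simp only; omega⟩
  · left; simp only [Prod.mk.injEq]; omega

lemma big (n : ℕ) (hn : 1 ≤ n) (a b : ℤ) :
    IsPolyomino (wob (sh (Net n) a b)) ∧ Folds (wob (sh (Net n) a b)) := by
  have hm : ∀ x y, (x, y) ∈ wob (sh (Net n) a b) ↔ (x - 6 * a, y - 6 * b) ∈ wob (Net n) := by
    intro x y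
    rw [mem_wob, mem_wob, own_shift, ← mem_sh]
  exact ⟨(wob_poly (Net_poly n (by omega))).shift _ _ hm,
    ((wN_cert n hn).shift _ _ hm).folds (by omega)⟩

lemma small (i : Fin 6) (a b : ℤ) : IsPolyomino (sh (H i) a b) ∧ Folds (sh (H i) a b) :=
  ⟨(H_poly i).shift _ _ (mem_sh _ _ _), ((H_cert i).shift _ _ (mem_sh _ _ _)).folds (by omega)⟩

/-- Cutting out a family of blocks and cutting every other tile into six unit nets. -/
lemma assemble {ι : Type} [Fintype ι] (C : Finset (ℤ × ℤ))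
    (hC : IsPolyomino (wob C) ∧ Folds (wob C)) (B : ι → Finset (ℤ × ℤ))
    (hB : ∀ i, IsPolyomino (wob (B i)) ∧ Folds (wob (B i))) (hs : ∀ i, B i ⊆ C)
    (hd : ∀ i j, ∀ c ∈ B i, c ∈ B j → i = j) (k : ℕ)
    (hk : k + 6 * ∑ i, (B i).card = Fintype.card ι + 6 * C.card) : RepCube k := by
  classical
  let U := Finset.univ.biUnion B
  have hU : U.card = ∑ i, (B i).card := by
    apply Finset.card_biUnion
    intro i _ j _ hij
    exact Finset.disjoint_left.2 fun c h1 h2 => hij (hd i j c h1 h2)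
  have hUC : U ⊆ C := Finset.biUnion_subset.2 fun i _ => hs i
  have hR : (C \ U).card + U.card = C.card := Finset.card_sdiff_add_card_eq_card hUC
  let κ := ι ⊕ ((C \ U : Finset (ℤ × ℤ)) × Fin 6)
  have hκ : Fintype.card κ = k := by
    simp only [κ, Fintype.card_sum, Fintype.card_prod, Fintype.card_coe, Fintype.card_fin]
    omega
  let e := Fintype.equivFinOfCardEq hκ
  let pc : κ → Finset (ℤ × ℤ) := fun s => match s with
    | .inl i => wob (B i)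
    | .inr (q, j) => sh (H j) (6 * q.1.1) (6 * q.1.2)
  suffices hh : (∀ s, IsPolyomino (pc s) ∧ Folds (pc s)) ∧ (∀ s s', s ≠ s' → Disjoint (pc s) (pc s'))
      ∧ ∀ c, c ∈ wob C ↔ ∃ s, c ∈ pc s by
    refine ⟨wob C, hC.1, hC.2, fun i => pc (e.symm i), fun i => hh.1 _,
      fun i j hij => hh.2.1 _ _ fun h => hij (e.symm.injective h), fun c => ?_⟩
    rw [hh.2.2]
    exact ⟨fun ⟨s, hs⟩ => ⟨e s, by simpa using hs⟩, fun ⟨i, hi⟩ => ⟨_, hi⟩⟩
  refine ⟨?_, ?_, ?_⟩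
  · rintro (s | ⟨q, j⟩)
    · exact hB s
    · exact small j _ _
  · rintro (s | ⟨q, a⟩) (s' | ⟨q', a'⟩) hne <;>
      rw [Finset.disjoint_left] <;> rintro ⟨x, y⟩ h1 h2
    · exact hne (congrArg _ (hd s s' _ ((mem_wob _ _ _).1 h1) ((mem_wob _ _ _).1 h2)))
    · have h3 := (mem_wob _ _ _).1 h1
      rw [own_sh h2] at h3
      exact (Finset.mem_sdiff.1 q'.2).2 (Finset.mem_biUnion.2 ⟨s, Finset.mem_univ _, h3⟩)
    · have h3 := (mem_wob _ _ _).1 h2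
      rw [own_sh h1] at h3
      exact (Finset.mem_sdiff.1 q.2).2 (Finset.mem_biUnion.2 ⟨s', Finset.mem_univ _, h3⟩)
    · have hq : q = q' := Subtype.ext ((own_sh h1).symm.trans (own_sh h2))
      subst hq
      have := H_uniq a a' _ ((mem_sh _ _ _ _ _).1 h1) ((mem_sh _ _ _ _ _).1 h2)
      subst this
      exact hne rfl
  · rintro ⟨x, y⟩
    constructor
    · intro h
      rw [mem_wob] at h
      by_cases hu : own x y ∈ U
      · obtain ⟨s, -, hs⟩ := Finset.mem_biUnion.1 hu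
        exact ⟨.inl s, (mem_wob _ _ _).2 hs⟩
      · obtain ⟨j, hj⟩ := sh_own x y
        exact ⟨.inr (⟨own x y, Finset.mem_sdiff.2 ⟨h, hu⟩⟩, j), hj⟩
    · rintro ⟨s | ⟨q, j⟩, hi⟩
      · exact (mem_wob _ _ _).2 (hs s ((mem_wob _ _ _).1 hi))
      · rw [mem_wob, own_sh hi]
        exact (Finset.mem_sdiff.1 q.2).1

lemma family (n a b k : ℕ) (hn : 70 ≤ n) (ha : a ≤ 3 * n) (hb : b ≤ 35)
    (hk : k + 35 * a + 143 * b = 36 * n ^ 2) : RepCube k := by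
  obtain ⟨J, hJ, hJc⟩ := Finset.exists_subset_card_eq (s := Finset.range 3 ×ˢ Finset.range n)
    (n := a) (by simpa using ha)
  have hJ' : ∀ p : J, p.1.1 < 3 ∧ p.1.2 < n := fun p => by simpa using hJ p.2
  let B : J ⊕ Fin b → Finset (ℤ × ℤ) := fun s => match s with
    | .inl p => sh (Net (1 : ℕ)) (4 * p.1.2) (3 * p.1.1 + 1)
    | .inr j => sh (Net (2 : ℕ)) (8 * (j : ℕ)) 11
  apply assemble (sh (Net n) 0 0) (big n (by omega) 0 0) B
  · rintro (p | j)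
    · exact big 1 le_rfl _ _
    · exact big 2 (by omega) _ _
  · rintro (p | j) ⟨x, y⟩ h <;> simp only [B, mem_sh, mem_Net, InN] at h ⊢
    · have := hJ' p
      omega
    · have := j.2
      omega
  · rintro (p | j) (p' | j') ⟨x, y⟩ h h' <;> simp only [B, mem_sh, mem_Net, InN] at h h'
    · congr 1
      exact Subtype.ext (Prod.ext (by omega) (by omega))
    · have := hJ' p
      omega
    · have := hJ' p'
      omega
    · congr 1
      exact Fin.ext (by omega)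
  · simp only [Fintype.sum_sum_type, B, card_sh, card_Net, Finset.sum_const, Finset.card_univ,
      Fintype.card_coe, Fintype.card_fin, Fintype.card_sum, hJc, smul_eq_mul]
    omega

theorem result : ∃ K : ℕ, ∀ k : ℕ, K < k → RepCube k := by
  refine ⟨800000, fun k hk => ?_⟩
  have hex : ∃ n, k + 4862 ≤ 36 * n ^ 2 := ⟨k + 4862, by nlinarith⟩
  obtain ⟨n, h1, h2⟩ : ∃ n, k + 4862 ≤ 36 * (n + 1) ^ 2 ∧ 36 * n ^ 2 < k + 4862 := by
    have hs := Nat.find_spec hex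
    have h0 : Nat.find hex ≠ 0 := by
      intro h; rw [h] at hs; omega
    obtain ⟨n, hn⟩ := Nat.exists_eq_succ_of_ne_zero h0
    have := Nat.find_min hex (m := n) (by omega)
    rw [hn] at hs
    exact ⟨n, hs, by omega⟩
  have hn : 148 ≤ n := by
    by_contra h
    have : n + 1 ≤ 148 := by omega
    nlinarith
  have e : (n + 1) ^ 2 = n ^ 2 + 2 * n + 1 := by ring
  obtain ⟨D, hD⟩ : ∃ D, k + D = 36 * (n + 1) ^ 2 := ⟨36 * (n + 1) ^ 2 - k, by omega⟩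
  apply family (n + 1) ((D - 143 * (12 * D % 35)) / 35) (12 * D % 35) k <;> omega

end Pool.Agent.Results.MP_ea7ca7_co.AllLarge
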